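import Pool.Agent.J4.H6.NC.Pen

set_option autoImplicit false

/-!
# Inequalities for the reduction near the anticanonical classes
-/

namespace Pool.Agent.J4.H6.NC

/-- the norm after one multiplicity has been increased -/
theorem ar_norm {D w ε E x κL sL κ s : ℤ} (hD : D = 1 ∨ D = 2 ∨ D = 3) (hκL : κL = D * w + ε)
    (hε0 : 0 ≤ ε) (hεE : ε ≤ E) (hE : 2 ≤ E) (hQ0 : 0 ≤ κL ^ 2 - D * sL)
    (hQ1 : κL ^ 2 - D * sL ≤ ε ^ 2) (hx1 : 2 * E - 1 ≤ x) (hx2 : x ≤ 2 * E) (hκ : κ = κL - x)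
    (hs : s = sL - 2 * w * x - x ^ 2) :
    E ^ 2 < κ ^ 2 - D * s ∧ κ ^ 2 - D * s ≤ E ^ 2 + (D + 1) * (4 * E ^ 2) := by
  have h1 : κ ^ 2 - D * s = (κL ^ 2 - D * sL) - 2 * x * ε + (D + 1) * x ^ 2 := by
    rw [hκ, hs]
    have : ε = κL - D * w := by linarith
    rw [this]
    ring
  have hx0 : 0 ≤ x := by linarith
  have k1 : x * ε ≤ x * E := mul_le_mul_of_nonneg_left hεE hx0
  have k2 : 0 ≤ x * ε := mul_nonneg hx0 hε0
  have k3 : ε ^ 2 ≤ E ^ 2 := pow_le_pow_left₀ hε0 hεE 2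
  have k4 : x ^ 2 ≤ 4 * E ^ 2 := by
    have := pow_le_pow_left₀ hx0 hx2 2
    linarith [this, (by ring : (2 * E) ^ 2 = 4 * E ^ 2)]
  have k5 : (2 * E - 1) * (E - 1) ≤ x * (x - E) :=
    mul_le_mul hx1 (by linarith) (by linarith) hx0
  have k6 : 0 ≤ x ^ 2 := sq_nonneg x
  rw [h1]
  constructor
  · have k7 : E ^ 2 < 2 * ((2 * E - 1) * (E - 1)) := by nlinarith
    rcases hD with rfl | rfl | rfl <;> nlinarith
  · rcases hD with rfl | rfl | rfl <;> nlinarith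

/-- the two conditions for the reduction -/
theorem ar_pair {D w ε E x κL κ s : ℤ} (hD : D = 1 ∨ D = 2 ∨ D = 3) (hκL : κL = D * w + ε)
    (hε0 : 0 ≤ ε) (hE : 2 ≤ E) (hx2 : x ≤ 2 * E) (hκ : κ = κL - x)
    (hw5 : 5 * E ≤ w) (hw7 : D = 1 → 7 * E ≤ w)
    (hQ : κ ^ 2 - D * s ≤ E ^ 2 + (D + 1) * (4 * E ^ 2)) : 0 ≤ κ ∧ κ ^ 2 ≤ (D + 1) * s := by
  rcases hD with rfl | rfl | rfl
  · have hw := hw7 rfl
    have h1 : 5 * E ≤ κ := by linarith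
    have h2 : (5 * E) ^ 2 ≤ κ ^ 2 := pow_le_pow_left₀ (by linarith) h1 2
    refine ⟨by linarith, ?_⟩
    nlinarith [sq_nonneg E]
  · have h1 : 8 * E ≤ κ := by linarith
    have h2 : (8 * E) ^ 2 ≤ κ ^ 2 := pow_le_pow_left₀ (by linarith) h1 2
    refine ⟨by linarith, ?_⟩
    nlinarith [sq_nonneg E]
  · have h1 : 13 * E ≤ κ := by linarith
    have h2 : (13 * E) ^ 2 ≤ κ ^ 2 := pow_le_pow_left₀ (by linarith) h1 2
    refine ⟨by linarith, ?_⟩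
    nlinarith [sq_nonneg E]

/-- the last multiplicity after the reduction -/
theorem ar_last {D w ε E x κL κ s u : ℤ} (hD : D = 1 ∨ D = 2 ∨ D = 3) (hκL : κL = D * w + ε)
    (hε0 : 0 ≤ ε) (hE : 2 ≤ E) (hx2 : x ≤ 2 * E) (hκ : κ = κL - x)
    (hQ : κ ^ 2 - D * s ≤ E ^ 2 + (D + 1) * (4 * E ^ 2))
    (h1 : (D * u - κ) ^ 2 ≤ (D + 1) * (κ ^ 2 - D * s)) :
    w ≤ u + 7 * E ∧ (D = 1 ∨ w ≤ u + 5 * E) := by
  have key : ∀ c : ℤ, 0 ≤ c → (D + 1) * (E ^ 2 + (D + 1) * (4 * E ^ 2)) < (c * E) ^ 2 →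
      κ ≤ D * u + c * E := by
    intro c hc h2
    by_contra hcon
    push Not at hcon
    have h3 : (c * E) ^ 2 ≤ (κ - D * u) ^ 2 :=
      pow_le_pow_left₀ (mul_nonneg hc (by linarith)) (by linarith) 2
    have h4 : (D + 1) * (κ ^ 2 - D * s) ≤ (D + 1) * (E ^ 2 + (D + 1) * (4 * E ^ 2)) :=
      mul_le_mul_of_nonneg_left hQ (by rcases hD with rfl | rfl | rfl <;> norm_num)
    have h5 : (κ - D * u) ^ 2 = (D * u - κ) ^ 2 := by ring
    linarith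
  have hE2 : 0 < E ^ 2 := by positivity
  rcases hD with rfl | rfl | rfl
  · have := key 5 (by norm_num) (by nlinarith)
    exact ⟨by linarith, Or.inl rfl⟩
  · have := key 7 (by norm_num) (by nlinarith)
    exact ⟨by linarith, Or.inr (by linarith)⟩
  · have := key 9 (by norm_num) (by nlinarith)
    exact ⟨by linarith, Or.inr (by linarith)⟩

/-- a standard class with at most seven multiplicities has nonnegative self-intersection -/
theorem sq7 {e a0 a1 a2 a3 a4 a5 a6 : ℤ} (h6 : 0 ≤ a6) (h56 : a6 ≤ a5) (h45 : a5 ≤ a4)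
    (h34 : a4 ≤ a3) (h23 : a3 ≤ a2) (h12 : a2 ≤ a1) (h01 : a1 ≤ a0) (hs : a0 + a1 + a2 ≤ e) :
    a0 ^ 2 + a1 ^ 2 + a2 ^ 2 + a3 ^ 2 + a4 ^ 2 + a5 ^ 2 + a6 ^ 2 ≤ e ^ 2 := by
  have k1 : a3 * a3 ≤ a0 * a1 := mul_le_mul (by linarith) (by linarith) (by linarith) (by linarith)
  have k2 : a4 * a4 ≤ a0 * a2 := mul_le_mul (by linarith) (by linarith) (by linarith) (by linarith)
  have k3 : a5 * a5 ≤ a1 * a2 := mul_le_mul (by linarith) (by linarith) (by linarith) (by linarith)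
  have k4 : a6 * a6 ≤ a0 * a1 := mul_le_mul (by linarith) (by linarith) (by linarith) (by linarith)
  have k5 : 0 ≤ a0 * a2 := mul_nonneg (by linarith) (by linarith)
  have k6 : 0 ≤ a1 * a2 := mul_nonneg (by linarith) (by linarith)
  have k7 : (a0 + a1 + a2) ^ 2 ≤ e ^ 2 := pow_le_pow_left₀ (by linarith) hs 2
  nlinarith

/-- the room for the raised multiplicity -/
theorem ar_room {D w ε E sL B wn t G : ℤ} (hD : D = 1 ∨ D = 2 ∨ D = 3) (hε0 : 0 ≤ ε)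
    (hw0 : 0 ≤ wn) (hE : 2 ≤ E) (hGE : G ≤ E) (ht0 : 0 ≤ t) (ht : t ≤ G)
    (hgap : wn + 5 * E ≤ w) (hgap7 : D = 1 → wn + 7 * E ≤ w) (hQ1 : D * w ^ 2 + 2 * w * ε ≤ sL)
    (hB : B ≤ D * wn ^ 2) : B + 4 * E * w + 4 * E ^ 2 + t * (t + 1) ≤ sL := by
  have hwn : wn ^ 2 ≤ (w - 5 * E) ^ 2 := pow_le_pow_left₀ hw0 (by linarith) 2
  have ht2 : t * t ≤ E * E := mul_self_le_mul_self ht0 (by linarith)
  have hwe : 0 ≤ w * ε := mul_nonneg (by linarith) hε0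
  have hwE : 5 * E * E ≤ w * E := mul_le_mul_of_nonneg_right (by linarith) (by linarith)
  have hEE : 2 * E ≤ E * E := mul_le_mul_of_nonneg_right hE (by linarith)
  rcases hD with rfl | rfl | rfl
  · have h7 := hgap7 rfl
    have hwn7 : wn ^ 2 ≤ (w - 7 * E) ^ 2 := pow_le_pow_left₀ hw0 (by linarith) 2
    have hwE7 : 7 * E * E ≤ w * E := mul_le_mul_of_nonneg_right (by linarith) (by linarith)
    nlinarith
  · nlinarith
  · nlinarith

end Pool.Agent.J4.H6.NC
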