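import Pool.Agent.J4.H6.NC.Exc
import Pool.Agent.TH167.TT.Irr2
import Pool.Agent.TH167.TT.NonSp
import Pool.Agent.TH167.Neg.Dim
import Pool.Agent.TH167.SH.Fam

set_option autoImplicit false

/-!
# Negative curves: the tenth multiplicity
-/

namespace Pool.Agent.J4.H6.NC

open Finset Pool.Agent.TH641.UM Pool.Agent.TH2.NU Pool.Agent.J4.H25.Gl Pool.Agent.H932R3
  Pool.Agent.J4.H6.NM Pool.Agent.W609 Pool.Agent.W609.CR Pool.Agent.TH167.SH

/-- `v` lists the numbers `u i` in decreasing order, followed by zeros. -/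
def Decreasing {n : ℕ} (u : Fin n → ℕ) (v : ℕ → ℕ) : Prop :=
  Antitone v ∧ (∀ i, n ≤ i → v i = 0) ∧ ∃ σ : Equiv.Perm (Fin n), ∀ i : Fin n, v i = u (σ i)

theorem exists_decreasing {n : ℕ} (u : Fin n → ℕ) : ∃ v, Decreasing u v := by
  obtain ⟨σ, hσ⟩ : ∃ σ : Equiv.Perm (Fin n), Antitone (u ∘ σ) := by
    refine ⟨Tuple.sort (fun i => OrderDual.toDual (u i)), ?_⟩
    have h := Tuple.monotone_sort (fun i => OrderDual.toDual (u i))
    intro i j hij
    exact h hij
  refine ⟨fun i => if h : i < n then u (σ ⟨i, h⟩) else 0, ?_, ?_, σ, ?_⟩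
  · intro i j hij
    by_cases hj : j < n
    · have hi : i < n := lt_of_le_of_lt hij hj
      simp only [hi, hj, dif_pos]
      exact hσ (show (⟨i, hi⟩ : Fin n) ≤ ⟨j, hj⟩ from hij)
    · simp only [hj, dif_neg, not_false_eq_true]
      exact Nat.zero_le _
  · intro i hi
    exact dif_neg (by omega)
  · intro i
    exact dif_pos i.2

theorem Decreasing.sum {n : ℕ} {u : Fin n → ℕ} {v : ℕ → ℕ} (h : Decreasing u v)
    {M : Type} [AddCommMonoid M] (f : ℕ → M) : ∑ i, f (u i) = ∑ i : Fin n, f (v i) := by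
  obtain ⟨-, -, σ, hσ⟩ := h
  rw [← Equiv.sum_comp σ (fun i => f (u i))]
  exact Finset.sum_congr rfl fun i _ => by rw [hσ i]

theorem Decreasing.ms {n : ℕ} {u : Fin n → ℕ} {v : ℕ → ℕ} (h : Decreasing u v) :
    Pool.Agent.TH641.UM.ms u = Pool.Agent.TH641.UM.ms (fun i : Fin n => v i) := by
  unfold Pool.Agent.TH641.UM.ms
  exact h.sum (fun k => ({k} : Multiset ℕ))

/-- from `NonSpecial` to `Sgn` -/
theorem sgn_of_nonSpecial {n d : ℕ} {v : Fin n → ℕ} (h : R735.SX.NonSpecial d v) :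
    Sgn (Pool.Agent.TH641.UM.ms v) d := by
  obtain ⟨F, hF, hF'⟩ := h
  obtain ⟨P, hP, hPF⟩ := exists_pt hF
  have h1 : ExpDim ℂ v P d := hF' P hPF
  refine Sgn_of_or ?_
  rcases emp_or_sur hP (le_of_eq h1) with h | h
  · exact Or.inl ((EmpM_ms _ _).2 h)
  · exact Or.inr ((SurM_ms _ _).2 h)

/-- a standard irreducible curve of negative self-intersection does not have the expected
dimension -/
theorem not_exp {r : ℕ} {P : Fin (r + 4) → Fin 2 → ℂ}
    (hP : AlgebraicIndependent ℚ (fun ij : Fin (r + 4) × Fin 2 => P ij.1 ij.2)) {e : ℕ}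
    {u : Fin (r + 4) → ℕ} {G : MvPolynomial (Fin 3) ℂ} (hG : Irreducible G)
    (hGe : G.IsHomogeneous e) (hord : ∀ j, Ord (aff (P j)) (u j) G)
    (hred : Pool.Agent.TH167.SH.Reduced e u) (hneg : ip e u e u < 0) : ¬ ExpDim ℂ u P e := by
  intro hexp
  have hneg' : e ^ 2 < ∑ j, u j ^ 2 := by
    unfold ip at hneg
    have : ((e ^ 2 : ℕ) : ℤ) < ((∑ j, u j ^ 2 : ℕ) : ℤ) := by
      push_cast
      have h5 : ∑ j, (u j : ℤ) * u j = ∑ j, (u j : ℤ) ^ 2 :=
        Finset.sum_congr rfl fun j _ => by ring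
      rw [h5] at hneg
      linarith [sq (e : ℤ)]
    exact_mod_cast this
  have hone := Pool.Agent.TH167.Neg.neg_dim P (inj_of_alg hP) u G e hG hGe hord hneg'
  rw [expDim_iff, hone] at hexp
  have hχ : Pool.Agent.TH167.SH.chi e u = 1 := by
    rcases le_total (Pool.Agent.TH167.SH.chi e u) 0 with h | h
    · rw [max_eq_left h] at hexp
      norm_num at hexp
    · rw [max_eq_right h] at hexp
      rw [← hexp]
      norm_num
  have h2χ := two_chi e u
  rw [hχ] at h2χ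
  have hkk : 0 < kk e u := by linarith
  have hsum : ∑ j, u j ≤ 3 * e := by
    unfold kk at hkk
    have : ((∑ j, u j : ℕ) : ℤ) ≤ ((3 * e : ℕ) : ℤ) := by
      push_cast
      linarith
    exact_mod_cast this
  have h6 := red_ip hred (fun j => van_le hG.ne_zero hGe (hord j).1) hsum
  linarith

/-- the sorted multiplicities of a standard negative curve are an exception -/
theorem exc_of_curve {r : ℕ} {P : Fin (r + 4) → Fin 2 → ℂ}
    (hP : AlgebraicIndependent ℚ (fun ij : Fin (r + 4) × Fin 2 => P ij.1 ij.2)) {e : ℕ}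
    {u : Fin (r + 4) → ℕ} {G : MvPolynomial (Fin 3) ℂ} (hG : Irreducible G)
    (hGe : G.IsHomogeneous e) (hord : ∀ j, Ord (aff (P j)) (u j) G)
    (hred : Pool.Agent.TH167.SH.Reduced e u) (hneg : ip e u e u < 0) {v : ℕ → ℕ}
    (hv : Decreasing u v) :
    (∃ s, s ≤ r + 4 ∧ R735.SX.Exception s e v) ∧ 3 ≤ v 9 ∧
      ¬ Sgn (Pool.Agent.TH641.UM.ms (fun i : Fin (r + 4) => v i)) e := by
  have hns : ¬ Sgn (Pool.Agent.TH641.UM.ms (fun i : Fin (r + 4) => v i)) e := by
    rw [← hv.ms]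
    intro h
    exact not_exp hP hG hGe hord hred hneg (exp_of_sgn h hP)
  have hms := hv
  obtain ⟨hanti, hzero, σ, hσ⟩ := hv
  have n0 : ((0 : Fin (r + 4)) : ℕ) = 0 := rfl
  have n1 : ((1 : Fin (r + 4)) : ℕ) = 1 := Nat.mod_eq_of_lt (show 1 < r + 4 by omega)
  have n2 : ((2 : Fin (r + 4)) : ℕ) = 2 := Nat.mod_eq_of_lt (show 2 < r + 4 by omega)
  have hd : v 0 + v 1 + v 2 ≤ e := by
    have h0 := hσ 0
    have h1 := hσ 1
    have h2 := hσ 2
    rw [n0] at h0
    rw [n1] at h1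
    rw [n2] at h2
    rw [h0, h1, h2]
    refine hred _ _ _ ?_ ?_ ?_
    · intro h
      have := congrArg Fin.val (σ.injective h)
      rw [n0, n1] at this
      omega
    · intro h
      have := congrArg Fin.val (σ.injective h)
      rw [n0, n2] at this
      omega
    · intro h
      have := congrArg Fin.val (σ.injective h)
      rw [n1, n2] at this
      omega
  have h9 : 3 ≤ v 9 := by
    by_contra hcon
    push Not at hcon
    apply hns
    obtain ⟨K, _, _, Q, hQ⟩ := Pool.Agent.TH167.SH.exists_generic (r + 4)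
    refine sgn_of_generic hQ ?_
    have hred' : Pool.Agent.TH167.SH.Reduced e (fun i : Fin (r + 4) => v i) :=
      Pool.Agent.TH167.TT.red_of_antitone (fun i j hij => hanti hij)
        (by simp only [n0, n1, n2]; exact hd)
    have h1 := Pool.Agent.TH167.TT.nonsp_gen hred' (Pool.Agent.TH167.TT.card_of_nine fun i hi => by
      have := hanti hi
      omega) hQ
    have h2 : ExpDim K (fun i : Fin (r + 4) => v i) Q e ↔
        Module.finrank K ↥(VS (fun j => aff (Q j)) (fun i : Fin (r + 4) => v i) e) =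
        Nat.choose (e + 2) 2 - ∑ i : Fin (r + 4), Nat.choose (v i + 1) 2 := by
      rw [← sys_eq]
      exact Iff.rfl
    rw [h2]
    exact h1
  obtain ⟨s, hs1, hs2, hs3⟩ : ∃ s, s ≤ r + 4 ∧ (∀ i, i < s → 0 < v i) ∧ ∀ i, s ≤ i → v i = 0 := by
    classical
    have hex : ∃ i, v i = 0 := ⟨r + 4, hzero _ le_rfl⟩
    refine ⟨Nat.find hex, Nat.find_min' hex (hzero _ le_rfl), fun i hi => ?_, fun i hi => ?_⟩
    · exact Nat.pos_of_ne_zero (Nat.find_min hex hi)
    · have h1 := Nat.find_spec hex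
      have h2 := hanti hi
      omega
  refine ⟨⟨s, hs1, ?_, hanti, hs2, hs3, hd, ?_⟩, h9, hns⟩
  · by_contra h
    have := hs3 9 (by omega)
    omega
  · intro h
    apply hns
    rw [sgn_pad hs1 v hs3]
    exact sgn_of_nonSpecial h

/-- multiplicities `k` at nine generic points and at least one further multiplicity, in degree
`3 k`: no curve -/
theorem sgn_three_k {n k : ℕ} {v : ℕ → ℕ} (hn : 10 ≤ n) (hk : 1 ≤ k) (h : ∀ i, i < 9 → v i = k)
    (h9 : 1 ≤ v 9) : Sgn (Pool.Agent.TH641.UM.ms (fun i : Fin n => v i)) (3 * k) := by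
  obtain ⟨r, rfl⟩ : ∃ r, n = r + 4 := ⟨n - 4, by omega⟩
  obtain ⟨K, _, _, Q, hQ⟩ := Pool.Agent.TH167.SH.exists_generic (r + 4)
  refine sgn_of_generic hQ ?_
  obtain ⟨u, hu⟩ : ∃ u : ℕ → ℕ, u = fun i => if i < 9 then k else if i = 9 then 1 else 0 :=
    ⟨_, rfl⟩
  have hanti : Antitone u := by
    rw [hu]
    intro i j hij
    simp only
    split_ifs <;> omega
  have huv : ∀ i, u i ≤ v i := by
    intro i
    rw [hu]
    simp only
    split_ifs with h1 h2
    · rw [h i h1]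
    · rw [h2]
      exact h9
    · exact Nat.zero_le _
  have n0 : ((0 : Fin (r + 4)) : ℕ) = 0 := rfl
  have n1 : ((1 : Fin (r + 4)) : ℕ) = 1 := Nat.mod_eq_of_lt (show 1 < r + 4 by omega)
  have n2 : ((2 : Fin (r + 4)) : ℕ) = 2 := Nat.mod_eq_of_lt (show 2 < r + 4 by omega)
  have hred : Pool.Agent.TH167.SH.Reduced (3 * k) (fun i : Fin (r + 4) => u i) :=
    Pool.Agent.TH167.TT.red_of_antitone (fun i j hij => hanti hij)
      (by
        simp only [n0, n1, n2, hu]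
        norm_num
        omega)
  have h1 := Pool.Agent.TH167.TT.nonsp_gen hred (Pool.Agent.TH167.TT.card_of_nine fun i hi => by
      simp only [hu]
      split_ifs <;> omega) hQ
  have hsum : ∑ i : Fin (r + 4), (u i + 1).choose 2 = 9 * (k + 1).choose 2 + 1 := by
    rw [Fin.sum_univ_eq_sum_range (fun i => (u i + 1).choose 2) (r + 4),
      ← Finset.sum_range_add_sum_Ico _ (show 10 ≤ r + 4 by omega)]
    have e1 : ∑ i ∈ range 10, (u i + 1).choose 2 = 9 * (k + 1).choose 2 + 1 := by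
      rw [hu]
      simp only [Finset.sum_range_succ, Finset.sum_range_zero]
      norm_num
      ring
    have e2 : ∑ i ∈ Ico 10 (r + 4), (u i + 1).choose 2 = 0 := by
      refine Finset.sum_eq_zero fun i hi => ?_
      have := (mem_Ico.1 hi).1
      rw [hu]
      simp only
      rw [if_neg (by omega), if_neg (by omega)]
      rfl
    rw [e1, e2, add_zero]
  have hch : (3 * k + 2).choose 2 = 9 * (k + 1).choose 2 + 1 := by
    have a1 := H932R7.two_choose (3 * k)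
    have a2 := H932R7.two_choose k
    have a3 : (k + 2).choose 2 = (k + 1) + (k + 1).choose 2 := by
      have := Nat.choose_succ_succ' (k + 1) 1
      rw [Nat.choose_one_right] at this
      exact this
    nlinarith
  rw [hsum, hch, Nat.sub_self] at h1
  have h2 : Module.finrank K ↥(VS (fun j => aff (Q j)) (fun i : Fin (r + 4) => v i) (3 * k)) = 0 := by
    have hfin := vs_fin (fun j => aff (Q j)) (fun i : Fin (r + 4) => u i) (3 * k)
    have hle : VS (fun j => aff (Q j)) (fun i : Fin (r + 4) => v i) (3 * k) ≤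
        VS (fun j => aff (Q j)) (fun i : Fin (r + 4) => u i) (3 * k) := fun f hf =>
      Pool.Agent.TH167.TT.vs_le (fun i => huv i) hf
    have := Submodule.finrank_mono hle
    omega
  have h3 : ExpDim K (fun i : Fin (r + 4) => v i) Q (3 * k) ↔
      Module.finrank K ↥(VS (fun j => aff (Q j)) (fun i : Fin (r + 4) => v i) (3 * k)) =
      Nat.choose (3 * k + 2) 2 - ∑ i : Fin (r + 4), Nat.choose (v i + 1) 2 := by
    rw [← sys_eq]
    exact Iff.rfl
  rw [h3, h2]
  have h4 : ∑ i : Fin (r + 4), (u i + 1).choose 2 ≤ ∑ i : Fin (r + 4), (v i + 1).choose 2 :=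
    Finset.sum_le_sum fun i _ => Nat.choose_le_choose 2 (by have := huv i; omega)
  rw [hsum, ← hch] at h4
  omega

/-- arithmetic of classes near the anticanonical class -/
theorem near_arith {e v8 a0 a1 a2 a3 a4 a5 a6 a7 b K T : ℤ} (h0 : 0 ≤ a0) (h1 : 0 ≤ a1)
    (h2 : 0 ≤ a2) (h3 : 0 ≤ a3) (h4 : 0 ≤ a4) (h5 : 0 ≤ a5) (h6 : 0 ≤ a6) (h7 : 0 ≤ a7)
    (k0 : a0 ≤ K) (k1 : a1 ≤ K) (k2 : a2 ≤ K) (k3 : a3 ≤ K) (k4 : a4 ≤ K) (k5 : a5 ≤ K)
    (k6 : a6 ≤ K) (k7 : a7 ≤ K) (hv8 : 0 ≤ v8)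
    (he : e = 3 * v8 + b) (hb : b ≤ 3 * K)
    (hε : 1 ≤ 3 * b - (a0 + a1 + a2 + a3 + a4 + a5 + a6 + a7))
    (hneg : e * e < (v8 + a0) * (v8 + a0) + (v8 + a1) * (v8 + a1) + (v8 + a2) * (v8 + a2) +
      (v8 + a3) * (v8 + a3) + (v8 + a4) * (v8 + a4) + (v8 + a5) * (v8 + a5) +
      (v8 + a6) * (v8 + a6) + (v8 + a7) * (v8 + a7) + v8 * v8 + T) :
    2 * e < 24 * K ^ 2 + 6 * K + 3 * T := by
  subst he
  have q0 : a0 * a0 ≤ K * K := mul_le_mul k0 k0 h0 (h0.trans k0)
  have q1 : a1 * a1 ≤ K * K := mul_le_mul k1 k1 h1 (h1.trans k1)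
  have q2 : a2 * a2 ≤ K * K := mul_le_mul k2 k2 h2 (h2.trans k2)
  have q3 : a3 * a3 ≤ K * K := mul_le_mul k3 k3 h3 (h3.trans k3)
  have q4 : a4 * a4 ≤ K * K := mul_le_mul k4 k4 h4 (h4.trans k4)
  have q5 : a5 * a5 ≤ K * K := mul_le_mul k5 k5 h5 (h5.trans k5)
  have q6 : a6 * a6 ≤ K * K := mul_le_mul k6 k6 h6 (h6.trans k6)
  have q7 : a7 * a7 ≤ K * K := mul_le_mul k7 k7 h7 (h7.trans k7)
  have p1 : v8 * 1 ≤ v8 * (3 * b - (a0 + a1 + a2 + a3 + a4 + a5 + a6 + a7)) :=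
    mul_le_mul_of_nonneg_left hε hv8
  have p2 : 0 ≤ b * b := mul_self_nonneg b
  have key : 2 * v8 < 8 * (K * K) + T := by linarith
  have : K ^ 2 = K * K := sq K
  rw [this]
  linarith

theorem all_equal {e : ℕ} {v : ℕ → ℕ} (hv : Antitone v) (hd : v 0 + v 1 + v 2 ≤ e)
    (h : 3 * e ≤ ∑ i ∈ range 9, v i) : e = 3 * v 8 ∧ ∀ i, i < 9 → v i = v 8 := by
  have e9 : ∑ i ∈ range 9, v i = v 0 + v 1 + v 2 + v 3 + v 4 + v 5 + v 6 + v 7 + v 8 := by
    simp only [Finset.sum_range_succ, Finset.sum_range_zero, zero_add]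
  rw [e9] at h
  have h01 := hv (show 0 ≤ 1 by omega)
  have h12 := hv (show 1 ≤ 2 by omega)
  have h23 := hv (show 2 ≤ 3 by omega)
  have h34 := hv (show 3 ≤ 4 by omega)
  have h45 := hv (show 4 ≤ 5 by omega)
  have h56 := hv (show 5 ≤ 6 by omega)
  have h67 := hv (show 6 ≤ 7 by omega)
  have h78 := hv (show 7 ≤ 8 by omega)
  have h08 : v 0 = v 8 := by omega
  refine ⟨by omega, fun i hi => ?_⟩
  have a := hv (Nat.zero_le i)
  have b := hv (show i ≤ 8 by omega)
  omega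

theorem tenth {s n e : ℕ} {v : ℕ → ℕ} (h : R735.SX.Exception s e v) (hz : ∀ i, n ≤ i → v i = 0)
    (hneg : e * e < ∑ i ∈ range n, v i * v i) (h9 : 1 ≤ v 9)
    (hns : ¬ Sgn (Pool.Agent.TH641.UM.ms (fun i : Fin n => v i)) e) :
    e < 54000000000000000 * v 9 ^ 8 + 2 * ∑ i ∈ Ico 9 n, v i ^ 2 := by
  have hn : 10 ≤ n := by
    by_contra hcon
    have := hz 9 (by omega)
    omega
  have hanti := h.2.1
  have hd := h.2.2.2.2.1
  obtain ⟨T, hT⟩ : ∃ T, T = ∑ i ∈ Ico 9 n, v i ^ 2 := ⟨_, rfl⟩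
  rw [← hT]
  have hmax : max (v 9) 1 = v 9 := max_eq_left h9
  have h8 := hanti (show 8 ≤ 9 by omega)
  rcases exc_tenth' h with h1 | ⟨-, h3, h4, h5, -⟩
  · rw [hmax] at h1
    exact lt_of_lt_of_le h1 (Nat.le_add_right _ _)
  · rw [hmax] at h3 h5
    obtain ⟨K, hK⟩ : ∃ K, K = 1440000 * v 9 ^ 2 := ⟨_, rfl⟩
    have hK3 : 4320000 * v 9 ^ 2 = 3 * K := by rw [hK]; ring
    rw [← hK] at h3
    rw [hK3] at h5
    rcases Nat.lt_or_ge (∑ i ∈ range 9, v i) (3 * e) with hlt | hge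
    · have e9 : ∑ i ∈ range 9, v i = v 0 + v 1 + v 2 + v 3 + v 4 + v 5 + v 6 + v 7 + v 8 := by
        simp only [Finset.sum_range_succ, Finset.sum_range_zero, zero_add]
      have e9' : ∑ i ∈ range n, v i * v i = v 0 * v 0 + v 1 * v 1 + v 2 * v 2 + v 3 * v 3 +
          v 4 * v 4 + v 5 * v 5 + v 6 * v 6 + v 7 * v 7 + v 8 * v 8 + T := by
        rw [← Finset.sum_range_add_sum_Ico _ (show 9 ≤ n by omega), hT]
        congr 1
        · simp only [Finset.sum_range_succ, Finset.sum_range_zero, zero_add]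
        · exact Finset.sum_congr rfl fun i _ => (sq _).symm
      rw [e9] at hlt
      rw [e9'] at hneg
      have b0 := hanti (show 0 ≤ 8 by omega)
      have b1 := hanti (show 1 ≤ 8 by omega)
      have b2 := hanti (show 2 ≤ 8 by omega)
      have b3 := hanti (show 3 ≤ 8 by omega)
      have b4 := hanti (show 4 ≤ 8 by omega)
      have b5 := hanti (show 5 ≤ 8 by omega)
      have b6 := hanti (show 6 ≤ 8 by omega)
      have b7 := hanti (show 7 ≤ 8 by omega)
      have c1 := hanti (show 0 ≤ 1 by omega)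
      have c2 := hanti (show 0 ≤ 2 by omega)
      have c3 := hanti (show 0 ≤ 3 by omega)
      have c4 := hanti (show 0 ≤ 4 by omega)
      have c5 := hanti (show 0 ≤ 5 by omega)
      have c6 := hanti (show 0 ≤ 6 by omega)
      have c7 := hanti (show 0 ≤ 7 by omega)
      have key := near_arith (e := (e : ℤ)) (v8 := (v 8 : ℤ)) (a0 := (v 0 : ℤ) - v 8)
        (a1 := (v 1 : ℤ) - v 8) (a2 := (v 2 : ℤ) - v 8) (a3 := (v 3 : ℤ) - v 8)
        (a4 := (v 4 : ℤ) - v 8) (a5 := (v 5 : ℤ) - v 8) (a6 := (v 6 : ℤ) - v 8)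
        (a7 := (v 7 : ℤ) - v 8) (b := (e : ℤ) - 3 * v 8) (K := (K : ℤ)) (T := (T : ℤ))
        (by omega) (by omega) (by omega) (by omega) (by omega) (by omega) (by omega) (by omega)
        (by omega) (by omega) (by omega) (by omega) (by omega) (by omega) (by omega) (by omega)
        (by omega) (by ring) (by omega) (by omega) (by
          have : ((e * e : ℕ) : ℤ) < ((v 0 * v 0 + v 1 * v 1 + v 2 * v 2 + v 3 * v 3 +
            v 4 * v 4 + v 5 * v 5 + v 6 * v 6 + v 7 * v 7 + v 8 * v 8 + T : ℕ) : ℤ) := by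
            exact_mod_cast hneg
          push_cast at this
          simp only [add_sub_cancel]
          exact this)
      have key' : 2 * e < 24 * K ^ 2 + 6 * K + 3 * T := by exact_mod_cast key
      have hv4 : v 9 ^ 4 ≤ v 9 ^ 8 := Nat.pow_le_pow_right h9 (by norm_num)
      have hv2 : v 9 ^ 2 ≤ v 9 ^ 8 := Nat.pow_le_pow_right h9 (by norm_num)
      have hK2 : K ^ 2 = 2073600000000 * v 9 ^ 4 := by rw [hK]; ring
      rw [hK2, hK] at key'
      linarith
    · exfalso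
      obtain ⟨k1, k2⟩ := all_equal hanti hd hge
      rw [k1] at hns
      exact hns (sgn_three_k hn (by omega) k2 h9)

/-- The sum of the multiplicities `v i > m` with `k ≤ i < n`. -/
def rest (k m n : ℕ) (v : ℕ → ℕ) : ℕ := ∑ i ∈ Ico k n, if m < v i then v i else 0

theorem rest_ext {k m s n : ℕ} {v : ℕ → ℕ} (hsn : s ≤ n) (hz : ∀ i, s ≤ i → v i = 0) :
    rest k m s v = rest k m n v := by
  unfold rest
  refine Finset.sum_subset (Finset.Ico_subset_Ico_right hsn) fun i hi hi' => ?_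
  have : s ≤ i := by
    by_contra hcon
    exact hi' (Finset.mem_Ico.2 ⟨(Finset.mem_Ico.1 hi).1, by omega⟩)
  rw [hz i this]
  simp

/-- the conditions -/
theorem large_of_curve {r : ℕ} {P : Fin (r + 4) → Fin 2 → ℂ}
    (hP : AlgebraicIndependent ℚ (fun ij : Fin (r + 4) × Fin 2 => P ij.1 ij.2)) {e : ℕ}
    {u : Fin (r + 4) → ℕ} {G : MvPolynomial (Fin 3) ℂ} (hG : Irreducible G)
    (hGe : G.IsHomogeneous e) (hord : ∀ j, Ord (aff (P j)) (u j) G)
    (hred : Pool.Agent.TH167.SH.Reduced e u) (hneg : ip e u e u < 0) {v : ℕ → ℕ}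
    (hv : Decreasing u v) :
    e < 54000000000000000 * v 9 ^ 8 + 2 * ∑ i ∈ Ico 9 (r + 4), v i ^ 2 ∧
      e < 3400000000000000 * v 8 ^ 8 ∧
      ∀ m : ℕ, 1 ≤ m → v 2 < 50 * (2 * m ^ 2 + 3 * m + 3 + rest 8 m (r + 4) v) ∧
        (v 2 < 100 * (2 * m ^ 2 + 3 * m + 3 + rest 9 m (r + 4) v) ∨
          (e < v 0 + 2 * v 5 + 5 * (2 * m ^ 2 + 3 * m + 3 + rest 9 m (r + 4) v) ∧
            3 * e < ∑ i ∈ range 9, v i +
              180000 * (2 * m ^ 2 + 3 * m + 3 + rest 9 m (r + 4) v))) := by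
  obtain ⟨⟨s, hs, hexc⟩, h9, hns⟩ := exc_of_curve hP hG hGe hord hred hneg hv
  have hz : ∀ i, s ≤ i → v i = 0 := hexc.2.2.2.1
  have h8 := hexc.2.1 (show 8 ≤ 9 by omega)
  refine ⟨tenth hexc hv.2.1 ?_ (by omega) hns, ?_, fun m hm => ⟨?_, ?_⟩⟩
  · have h1 : ∑ i : Fin (r + 4), v i * v i = ∑ i, u i * u i :=
      (hv.sum (fun k => k * k)).symm
    rw [← Fin.sum_univ_eq_sum_range (fun i => v i * v i) (r + 4), h1]
    unfold ip at hneg
    have : ((e * e : ℕ) : ℤ) < ((∑ i, u i * u i : ℕ) : ℤ) := by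
      push_cast
      linarith
    exact_mod_cast this
  · have := exc_deg hexc
    rwa [max_eq_left (by omega : 1 ≤ v 8)] at this
  · rw [← rest_ext hs hz]
    exact exc_third hexc hm
  · rw [← rest_ext hs hz]
    rcases Nat.lt_or_ge (v 2) (100 * (2 * m ^ 2 + 3 * m + 3 + rest 9 m s v)) with h | h
    · exact Or.inl h
    · exact Or.inr (exc_nine hexc hm h)

end Pool.Agent.J4.H6.NC
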