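import Pool.Agent.J4.H6.NC.Nine
import Pool.Agent.J4.H6.NM.Exc

set_option autoImplicit false

/-!
# Exceptions to the non-speciality statement: the tenth multiplicity
-/

namespace Pool.Agent.J4.H6.NC

open Finset Pool.Agent.TH641.UM Pool.Agent.TH2.NU Pool.Agent.J4.H25.Gl Pool.Agent.H932R3
  Pool.Agent.J4.H6.NM

/-- The sum of the multiplicities from the tenth one on which are larger than `m`. -/
def tail9 (m s : ℕ) (w : ℕ → ℕ) : ℕ := ∑ i ∈ Ico 9 s, if m < w i then w i else 0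

/-- **The tenth multiplicity.** -/
theorem ns_nine {m s d : ℕ} {w : ℕ → ℕ} (hm : 0 < m) (hw : Antitone w) (hs : ∀ i, s ≤ i → w i = 0)
    (hd : w 0 + w 1 + w 2 ≤ d) (h : 100 * (2 * m ^ 2 + 3 * m + 3 + tail9 m s w) ≤ w 2)
    (hsl : w 0 + 2 * w 5 + 5 * (2 * m ^ 2 + 3 * m + 3 + tail9 m s w) ≤ d ∨
      ∑ i ∈ range 9, w i + 180000 * (2 * m ^ 2 + 3 * m + 3 + tail9 m s w) ≤ 3 * d) :
    R735.SX.NonSpecial d (fun i : Fin s => w i) := by
  refine ns_of_sgn ?_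
  rw [← sgn_pad (show s ≤ s + 9 by omega) w hs, ms_range, ← Finset.sum_range_add_sum_Ico _
    (show 9 ≤ s + 9 by omega)]
  have e1 : ∑ i ∈ range 9, ({w i} : Multiset ℕ) =
      {w 0} + {w 1} + {w 2} + {w 3} + {w 4} + {w 5} + {w 6} + {w 7} + {w 8} := by
    simp only [Finset.sum_range_succ, Finset.sum_range_zero, zero_add]
  have e2 : ∑ i ∈ Ico 9 (s + 9), ({w i} : Multiset ℕ) =
      (∑ i ∈ (Ico 9 (s + 9)).filter fun i => m < w i, ({w i} : Multiset ℕ)) +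
        ∑ i ∈ (Ico 9 (s + 9)).filter fun i => ¬ m < w i, ({w i} : Multiset ℕ) :=
    (Finset.sum_filter_add_sum_filter_not _ _ _).symm
  rw [e1, e2, ← add_assoc]
  have e4 : W611.ff m + tail9 m s w + 1 = 2 * m ^ 2 + 3 * m + 3 + tail9 m s w := by
    unfold W611.ff
    ring
  have hmain : Al m (tail9 m s w) d ({w 0} + {w 1} + {w 2} + {w 3} + {w 4} + {w 5} + {w 6} +
      {w 7} + {w 8}) := by
    rcases hsl with hsl | hsl
    · exact main9 (m := m) (t := tail9 m s w) (d := d) hm (hw (show 0 ≤ 1 by omega))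
        (hw (show 1 ≤ 2 by omega)) (hw (show 2 ≤ 3 by omega)) (hw (show 3 ≤ 4 by omega))
        (hw (show 4 ≤ 5 by omega)) (hw (show 5 ≤ 6 by omega)) (hw (show 6 ≤ 7 by omega))
        (hw (show 7 ≤ 8 by omega)) hd (by rw [e4]; exact h) (by rw [e4]; exact hsl)
    · have e9 : ∑ i ∈ range 9, w i = w 0 + w 1 + w 2 + w 3 + w 4 + w 5 + w 6 + w 7 + w 8 := by
        simp only [Finset.sum_range_succ, Finset.sum_range_zero, zero_add]
      exact nine (m := m) (t := tail9 m s w) (d := d) hm (hw (show 0 ≤ 1 by omega))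
        (hw (show 1 ≤ 2 by omega)) (hw (show 2 ≤ 3 by omega)) (hw (show 3 ≤ 4 by omega))
        (hw (show 4 ≤ 5 by omega)) (hw (show 5 ≤ 6 by omega)) (hw (show 6 ≤ 7 by omega))
        (hw (show 7 ≤ 8 by omega)) hd (by rw [e4]; exact h) (by rw [e4, ← e9]; exact hsl)
  refine hmain _ _ ?_ ?_
  · have e3 : (∑ i ∈ (Ico 9 (s + 9)).filter fun i => m < w i, ({w i} : Multiset ℕ)).sum =
        ∑ i ∈ (Ico 9 (s + 9)).filter fun i => m < w i, w i := by
      rw [← Multiset.coe_sumAddMonoidHom, map_sum]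
      refine Finset.sum_congr rfl fun i _ => ?_
      simp
    rw [e3, Finset.sum_filter]
    unfold tail9
    rcases Nat.lt_or_ge s 9 with h8 | h8
    · refine le_of_eq_of_le (Finset.sum_eq_zero fun i hi => ?_) (Nat.zero_le _)
      rw [hs i (by have := (mem_Ico.1 hi).1; omega)]
      simp
    · rw [← Finset.sum_Ico_consecutive _ h8 (show s ≤ s + 9 by omega)]
      refine le_of_eq ?_
      rw [Nat.add_eq_left]
      refine Finset.sum_eq_zero fun i hi => ?_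
      rw [hs i (mem_Ico.1 hi).1]
      simp
  · intro z hz
    rw [Multiset.mem_sum] at hz
    obtain ⟨i, hi, hz⟩ := hz
    rw [Multiset.mem_singleton] at hz
    have := (mem_filter.1 hi).2
    omega

variable {s d : ℕ} {w : ℕ → ℕ}

/-- a bounded third multiplicity -/
theorem deg_of_third (h : R735.SX.Exception s d w) {k : ℕ} (hk : 150 ≤ k) (h2 : w 2 < k) :
    d < 131072 * k ^ 4 ∧ s < 131072 * k ^ 4 + 3 := by
  obtain ⟨hs, hanti, hpos, hzero, hd, hns⟩ := h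
  obtain ⟨B, hB⟩ : ∃ B, B = 131072 * k ^ 4 := ⟨_, rfl⟩
  have hB0 : 131072 * 150 ^ 4 ≤ B := hB ▸ Nat.mul_le_mul_left _ (Nat.pow_le_pow_left hk 4)
  rw [← hB]
  have h3 : 131072 * (w 3 + 1) ^ 4 ≤ B := by
    rw [hB]
    have := hanti (show 2 ≤ 3 by omega)
    exact Nat.mul_le_mul_left _ (Nat.pow_le_pow_left (by omega) 4)
  have b2 : (d + 1) * (d + 2) < B + (w 0 * (w 0 + 1) + w 1 * (w 1 + 1) + w 2 * (w 2 + 1)) := by
    by_contra hcon
    push Not at hcon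
    exact hns (ns_three hs hanti (hpos 3 (by omega)) hd (Or.inl (by omega)))
  have b3 : ∑ i ∈ Ico 3 s, (w i + 1).choose 2 < B := by
    by_contra hcon
    push Not at hcon
    exact hns (ns_three hs hanti (hpos 3 (by omega)) hd (Or.inr (by omega)))
  have h1 : (w 0 + w 1 + w 2 + 1) * (w 0 + w 1 + w 2 + 2) ≤ (d + 1) * (d + 2) :=
    Nat.mul_le_mul (by omega) (by omega)
  have hA : 2 * (w 0 * w 1 + w 0 * w 2 + w 1 * w 2) + 2 * (w 0 + w 1 + w 2) + 2 < B := by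
    nlinarith
  refine ⟨?_, ?_⟩
  · by_contra hcon
    push Not at hcon
    have h3' : 2 * (w 0 + w 1 + w 2) < B := by omega
    have h4 : w 0 * (w 0 + 1) + w 1 * (w 1 + 1) + w 2 * (w 2 + 1) ≤
        (w 0 + w 1 + w 2) * (w 0 + w 1 + w 2 + 1) := by nlinarith
    have h6 : (B + 1) * (B + 2) ≤ (d + 1) * (d + 2) := Nat.mul_le_mul (by omega) (by omega)
    have h7 : (w 0 + w 1 + w 2) * (w 0 + w 1 + w 2 + 1) ≤ B * (B + 1) :=
      Nat.mul_le_mul (by omega) (by omega)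
    nlinarith
  · by_contra hcon
    push Not at hcon
    have h2 : (Finset.Ico 3 s).card ≤ ∑ i ∈ Finset.Ico 3 s, (w i + 1).choose 2 := by
      rw [Finset.card_eq_sum_ones]
      apply Finset.sum_le_sum
      intro i hi
      rw [Finset.mem_Ico] at hi
      have := hpos i hi.2
      exact Nat.choose_pos (by omega)
    rw [Nat.card_Ico] at h2
    omega

theorem exc_nine (h : R735.SX.Exception s d w) {m : ℕ} (hm : 1 ≤ m)
    (h2 : 100 * (2 * m ^ 2 + 3 * m + 3 + tail9 m s w) ≤ w 2) :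
    d < w 0 + 2 * w 5 + 5 * (2 * m ^ 2 + 3 * m + 3 + tail9 m s w) ∧
      3 * d < ∑ i ∈ range 9, w i + 180000 * (2 * m ^ 2 + 3 * m + 3 + tail9 m s w) := by
  obtain ⟨hs, hanti, hpos, hzero, hd, hns⟩ := h
  constructor
  · by_contra hcon
    push Not at hcon
    exact hns (ns_nine hm hanti hzero hd h2 (Or.inl hcon))
  · by_contra hcon
    push Not at hcon
    exact hns (ns_nine hm hanti hzero hd h2 (Or.inr hcon))

theorem tail9_zero {μ : ℕ} (hw : Antitone w) (h9 : w 9 ≤ μ) : tail9 μ s w = 0 := by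
  unfold tail9
  refine Finset.sum_eq_zero fun i hi => ?_
  rw [if_neg]
  have := hw (mem_Ico.1 hi).1
  omega

/-- the classes of small anticanonical degree are near the anticanonical class -/
theorem near9 (hw : Antitone w) (hd : w 0 + w 1 + w 2 ≤ d) {K : ℕ}
    (h : 3 * d < ∑ i ∈ range 9, w i + K) :
    3 * w 8 ≤ d ∧ d < 3 * w 8 + 3 * K ∧ w 0 < w 8 + K := by
  have e9 : ∑ i ∈ range 9, w i = w 0 + w 1 + w 2 + w 3 + w 4 + w 5 + w 6 + w 7 + w 8 := by
    simp only [Finset.sum_range_succ, Finset.sum_range_zero, zero_add]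
  rw [e9] at h
  have h01 := hw (show 0 ≤ 1 by omega)
  have h12 := hw (show 1 ≤ 2 by omega)
  have h23 := hw (show 2 ≤ 3 by omega)
  have h34 := hw (show 3 ≤ 4 by omega)
  have h45 := hw (show 4 ≤ 5 by omega)
  have h56 := hw (show 5 ≤ 6 by omega)
  have h67 := hw (show 6 ≤ 7 by omega)
  have h78 := hw (show 7 ≤ 8 by omega)
  refine ⟨?_, ?_, ?_⟩
  · linarith
  · linarith
  · linarith

theorem exc_tenth (h : R735.SX.Exception s d w) {μ : ℕ} (hμ : 1 ≤ μ) (hw : w 9 ≤ μ) :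
    (d < 131072 * (100 * (2 * μ ^ 2 + 3 * μ + 3)) ^ 4 ∧
      s < 131072 * (100 * (2 * μ ^ 2 + 3 * μ + 3)) ^ 4 + 3) ∨
      (d < w 0 + 2 * w 5 + 5 * (2 * μ ^ 2 + 3 * μ + 3) ∧
        3 * d < ∑ i ∈ range 9, w i + 180000 * (2 * μ ^ 2 + 3 * μ + 3)) := by
  have h1 := exc_nine h hμ
  rw [tail9_zero h.2.1 hw, add_zero] at h1
  rcases Nat.lt_or_ge (w 2) (100 * (2 * μ ^ 2 + 3 * μ + 3)) with h2 | h2
  · left
    exact deg_of_third h (by omega) h2
  · right
    exact h1 h2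

theorem exc_tenth' (h : R735.SX.Exception s d w) :
    d < 54000000000000000 * (max (w 9) 1) ^ 8 ∨
      (3 * d < ∑ i ∈ range 9, w i + 1440000 * (max (w 9) 1) ^ 2 ∧
        w 0 < w 8 + 1440000 * (max (w 9) 1) ^ 2 ∧ 3 * w 8 ≤ d ∧
        d < 3 * w 8 + 4320000 * (max (w 9) 1) ^ 2 ∧
        d < w 0 + 2 * w 5 + 40 * (max (w 9) 1) ^ 2) := by
  obtain ⟨μ, hμ⟩ : ∃ μ, μ = max (w 9) 1 := ⟨_, rfl⟩
  have h1 : 1 ≤ μ := hμ ▸ le_max_right _ _
  have hK : 2 * μ ^ 2 + 3 * μ + 3 ≤ 8 * μ ^ 2 := by nlinarith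
  rw [← hμ]
  rcases exc_tenth h h1 (hμ ▸ le_max_left _ _) with ⟨h2, -⟩ | ⟨h2, h3⟩
  · left
    refine lt_of_lt_of_le h2 ?_
    calc 131072 * (100 * (2 * μ ^ 2 + 3 * μ + 3)) ^ 4 ≤ 131072 * (800 * μ ^ 2) ^ 4 :=
          Nat.mul_le_mul_left _ (Nat.pow_le_pow_left (by omega) 4)
      _ = 53687091200000000 * μ ^ 8 := by ring
      _ ≤ _ := Nat.mul_le_mul_right _ (by norm_num)
  · right
    have h4 : 3 * d < ∑ i ∈ range 9, w i + 1440000 * μ ^ 2 := by linarith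
    obtain ⟨k1, k2, k3⟩ := near9 h.2.1 h.2.2.2.2.1 h4
    exact ⟨h4, k3, k1, by linarith, by linarith⟩

/-- The degree and the nine largest multiplicities, up to multiples of the anticanonical class. -/
def shape9 (d : ℕ) (w : ℕ → ℕ) : ℕ × (Fin 8 → ℕ) := (d - 3 * w 8, fun i => w i - w 8)

/-- finitely many shapes -/
theorem exc_shapes (μ : ℕ) :
    {x : ℕ × (Fin 8 → ℕ) | ∃ (s d : ℕ) (w : ℕ → ℕ), R735.SX.Exception s d w ∧ w 9 ≤ μ ∧
      x = shape9 d w}.Finite := by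
  obtain ⟨ν, hν⟩ : ∃ ν, ν = max μ 1 := ⟨_, rfl⟩
  obtain ⟨N, hN⟩ : ∃ N, N = 54000000000000000 * ν ^ 8 + 4320000 * ν ^ 2 + 1440000 * ν ^ 2 :=
    ⟨_, rfl⟩
  have hfin : ((Set.Iio N) ×ˢ (Set.univ.pi fun _ : Fin 8 => Set.Iio N)).Finite :=
    (Set.finite_Iio N).prod (Set.Finite.pi fun _ => Set.finite_Iio N)
  apply hfin.subset
  rintro x ⟨s, d, w, h, hw, rfl⟩
  have hm : max (w 9) 1 ≤ ν := hν ▸ max_le_max_right 1 hw
  have h8 : (max (w 9) 1) ^ 8 ≤ ν ^ 8 := Nat.pow_le_pow_left hm 8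
  have h2 : (max (w 9) 1) ^ 2 ≤ ν ^ 2 := Nat.pow_le_pow_left hm 2
  have hd0 := h.2.2.2.2.1
  have hb : ∀ i, w i ≤ w 0 := fun i => h.2.1 (Nat.zero_le i)
  rcases exc_tenth' h with h1 | ⟨-, h3, h4, h5, -⟩
  · refine ⟨?_, fun i _ => ?_⟩
    · change d - 3 * w 8 < N
      omega
    · change w i - w 8 < N
      have := hb i
      omega
  · refine ⟨?_, fun i _ => ?_⟩
    · change d - 3 * w 8 < N
      omega
    · change w i - w 8 < N
      have := hb i
      omega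

end Pool.Agent.J4.H6.NC
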