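import Pool.Agent.J4.H6.NC.Four

set_option autoImplicit false

/-!
# Reduction of six, seven or eight of the multiplicities to a standard class
-/

namespace Pool.Agent.J4.H6.NC

open Pool.Agent.TH641.UM Pool.Agent.TH2.NU Pool.Agent.J4.H25.Gl Pool.Agent.W609.CR
  Pool.Agent.TH167.SH Pool.Agent.J4.H6.NM

/-- the inequality for two of the `9 - D` multiplicities -/
theorem pairD {n : ℕ} {D : ℤ} (hD : D = 1 ∨ D = 2 ∨ D = 3) (hn : (n : ℤ) = 9 - D) {d : ℕ}
    {v : Fin n → ℕ} {κ s : ℤ} (hk : kk d v = κ) (hs : ip d v d v = s)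
    (h0 : 0 ≤ κ) (h1 : κ ^ 2 ≤ (D + 1) * s) {a b : Fin n} (hab : a ≠ b) : v a + v b ≤ d := by
  by_contra hcon
  push Not at hcon
  obtain ⟨T, hT⟩ : ∃ T : Finset (Fin n), T = (Finset.univ.erase a).erase b := ⟨_, rfl⟩
  have hb : b ∈ Finset.univ.erase a := Finset.mem_erase.2 ⟨hab.symm, Finset.mem_univ b⟩
  have hc : T.card = n - 2 := by
    rw [hT, Finset.card_erase_of_mem hb, Finset.card_erase_of_mem (Finset.mem_univ a),
      Finset.card_univ, Fintype.card_fin]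
    omega
  have e : ∀ f : Fin n → ℤ, ∑ j, f j = f a + (f b + ∑ j ∈ T, f j) := by
    intro f
    rw [← Finset.add_sum_erase _ _ (Finset.mem_univ a), ← Finset.add_sum_erase _ _ hb, hT]
  have h2 := sq_sum_le_card_mul_sum_sq (s := T) (f := fun j => (v j : ℤ))
  have hcz : (T.card : ℤ) = 7 - D := by
    rw [hc]
    omega
  rw [hcz] at h2
  unfold kk at hk
  unfold ip at hs
  rw [e] at hk hs
  have e3 : ∑ j ∈ T, (v j : ℤ) * v j = ∑ j ∈ T, (v j : ℤ) ^ 2 := Finset.sum_congr rfl fun j _ => by ring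
  rw [e3] at hs
  obtain ⟨A, hA⟩ : ∃ A : ℤ, A = ∑ j ∈ T, (v j : ℤ) := ⟨_, rfl⟩
  obtain ⟨B, hB⟩ : ∃ B : ℤ, B = ∑ j ∈ T, (v j : ℤ) ^ 2 := ⟨_, rfl⟩
  rw [← hA] at hk h2
  rw [← hB] at hs h2
  obtain ⟨x, hx⟩ : ∃ x : ℤ, x = (d : ℤ) - v a - v b := ⟨_, rfl⟩
  have hx1 : x ≤ -1 := by
    have : (d : ℤ) < (v a : ℤ) + v b := by exact_mod_cast hcon
    omega
  obtain ⟨X, hX⟩ : ∃ X : ℤ, X = (v a : ℤ) := ⟨_, rfl⟩
  obtain ⟨Y, hY⟩ : ∃ Y : ℤ, Y = (v b : ℤ) := ⟨_, rfl⟩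
  obtain ⟨δ, hδ⟩ : ∃ δ : ℤ, δ = (d : ℤ) := ⟨_, rfl⟩
  rw [← hX, ← hY, ← hδ] at hx hk hs
  have hA2 : A = 2 * δ - κ + x := by linarith
  have hB2 : B = δ * δ - s - X * X - Y * Y := by linarith
  have h3 := sq_nonneg (X - Y)
  have h5 := mul_nonneg h0 (show (0 : ℤ) ≤ -x by omega)
  have h6 : 1 ≤ x * x := by nlinarith
  have hY2 : Y = δ - x - X := by linarith
  have h7 : 2 * (X * X + Y * Y) ≥ (δ - x) ^ 2 := by
    have : (δ - x) = X + Y := by linarith
    rw [this]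
    nlinarith
  have h8 : 2 * B ≤ 2 * (δ * δ) - 2 * s - (δ - x) ^ 2 := by linarith
  rw [hA2] at h2
  rcases hD with rfl | rfl | rfl
  · have h4 := sq_nonneg (2 * δ - 2 * x - 4 * κ)
    nlinarith
  · have h4 := sq_nonneg (3 * δ - x - 4 * κ)
    nlinarith
  · have h4 := sq_nonneg (4 * δ - 4 * κ)
    nlinarith

/-- the inequality for one of the `9 - D` multiplicities -/
theorem oneD {n : ℕ} {D : ℤ} (hD : D = 1 ∨ D = 2 ∨ D = 3) (hn : (n : ℤ) = 9 - D) {d : ℕ}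
    {v : Fin n → ℕ} {κ s : ℤ} (hk : kk d v = κ) (hs : ip d v d v = s) (a : Fin n) :
    (D * v a - κ) ^ 2 ≤ (D + 1) * (κ ^ 2 - D * s) := by
  obtain ⟨T, hT⟩ : ∃ T : Finset (Fin n), T = Finset.univ.erase a := ⟨_, rfl⟩
  have hc : T.card = n - 1 := by
    rw [hT, Finset.card_erase_of_mem (Finset.mem_univ a), Finset.card_univ, Fintype.card_fin]
  have e : ∀ f : Fin n → ℤ, ∑ j, f j = f a + ∑ j ∈ T, f j := by
    intro f
    rw [← Finset.add_sum_erase _ _ (Finset.mem_univ a), hT]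
  have h2 := sq_sum_le_card_mul_sum_sq (s := T) (f := fun j => (v j : ℤ))
  have hcz : (T.card : ℤ) = 8 - D := by
    rw [hc]
    omega
  rw [hcz] at h2
  unfold kk at hk
  unfold ip at hs
  rw [e] at hk hs
  have e3 : ∑ j ∈ T, (v j : ℤ) * v j = ∑ j ∈ T, (v j : ℤ) ^ 2 := Finset.sum_congr rfl fun j _ => by ring
  rw [e3] at hs
  have hA2 : ∑ j ∈ T, (v j : ℤ) = 3 * d - κ - v a := by linarith
  have hB2 : ∑ j ∈ T, (v j : ℤ) ^ 2 = d * d - s - v a * v a := by linarith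
  rw [hA2, hB2] at h2
  rcases hD with rfl | rfl | rfl
  · have h4 := sq_nonneg (2 * (d : ℤ) - 3 * (κ + v a))
    nlinarith
  · have h4 := sq_nonneg (3 * (d : ℤ) - 3 * (κ + v a))
    nlinarith
  · have h4 := sq_nonneg (4 * (d : ℤ) - 3 * (κ + v a))
    nlinarith

/-- the Hodge index theorem -/
theorem hodgeD {n : ℕ} {D : ℤ} (hD : D = 1 ∨ D = 2 ∨ D = 3) (hn : (n : ℤ) = 9 - D) {d : ℕ}
    {v : Fin n → ℕ} {κ s : ℤ} (hk : kk d v = κ) (hs : ip d v d v = s) (a : Fin n) :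
    0 ≤ κ ^ 2 - D * s := by
  have h1 := oneD hD hn hk hs a
  have h2 := sq_nonneg (D * (v a : ℤ) - κ)
  rcases hD with rfl | rfl | rfl <;> linarith

/-- **Reduction of `n` of the multiplicities to a standard class.** -/
theorem reduceD {m t n : ℕ} {R : Multiset ℕ} {κ s : ℤ}
    (hp : ∀ (d : ℕ) (v : Fin n → ℕ), kk d v = κ → ip d v d v = s → ∀ a b, a ≠ b → v a + v b ≤ d)
    (H : ∀ (d : ℕ) (v : Fin n → ℕ), Antitone v →
      (∀ i : Fin 3 → Fin n, Function.Injective i → v (i 0) + v (i 1) + v (i 2) ≤ d) → kk d v = κ →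
      ip d v d v = s → Al m t d (ms v + R)) :
    ∀ (d : ℕ) (v : Fin n → ℕ), kk d v = κ → ip d v d v = s → Al m t d (ms v + R) := by
  intro d
  induction d using Nat.strong_induction_on with
  | _ d ih =>
    intro v hk hs
    by_cases hc : ∃ i : Fin 3 → Fin n, Function.Injective i ∧ d < v (i 0) + v (i 1) + v (i 2)
    · obtain ⟨i, hi, hlt⟩ := hc
      have p : PS i d v := ⟨hp d v hk hs _ _ (ne10 hi).symm, hp d v hk hs _ _ (ne20 hi).symm,
        hp d v hk hs _ _ (ne21 hi).symm⟩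
      have h2 := ih (cd i d v) (by
        have q1 := p.p01
        have q2 := p.p02
        have q3 := p.p12
        unfold cd
        omega) (wcr d i v) (by rw [kk_cr hi p, hk]) (by rw [ip_cr hi p p, hs])
      intro Y Z hY hZ
      have h3 := h2 Y Z hY hZ
      rw [add_assoc, add_assoc] at h3 ⊢
      exact sgn_quad_app hi p _ h3
    · push Not at hc
      obtain ⟨σ, hσ⟩ : ∃ σ : Equiv.Perm (Fin n), Antitone (v ∘ σ) := by
        refine ⟨Fin.revPerm.trans (Tuple.sort v), ?_⟩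
        have h2 := Tuple.monotone_sort v
        intro a b hab
        exact h2 (Fin.rev_le_rev.2 hab)
      have e1 : ms (v ∘ σ) = ms v := by
        unfold ms
        exact Equiv.sum_comp σ (fun i => ({v i} : Multiset ℕ))
      rw [← e1]
      refine H d (v ∘ σ) hσ ?_ ?_ ?_
      · intro i hi
        exact hc (fun x => σ (i x)) (σ.injective.comp hi)
      · rw [← hk]
        unfold kk
        congr 1
        exact Equiv.sum_comp σ (fun i => (v i : ℤ))
      · rw [← hs]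
        unfold ip
        congr 1
        exact Equiv.sum_comp σ (fun i => (v i : ℤ) * (v i : ℤ))

end Pool.Agent.J4.H6.NC
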