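import Pool.Agent.J4.H6.NM.Main

set_option autoImplicit false

/-!
# Groups of four points, and nine arbitrary multiplicities
-/

namespace Pool.Agent.J4.H6.NC

open Pool.Agent.TH641.UM Pool.Agent.TH2.NU Pool.Agent.J4.H25.Gl Pool.Agent.J4.H6.NM

/-- one point -/
theorem node1' {m y d : ℕ} (hm : 0 < m) (h : y + W611.ff m + m + 1 ≤ d) : Al m 0 d {y} := by
  have h1 := al_p1 (t := 0) (d := d) hm [y] (by omega) (by
    intro a ha
    rw [List.mem_singleton] at ha
    omega) (List.pairwise_singleton _ _) (by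
    rw [List.sum_singleton]
    omega)
  exact h1

/-- four points -/
theorem node4 {m l y1 y2 y3 y4 d : ℕ} (hm : 0 < m) (h1 : y1 ≤ l) (h2 : y2 ≤ l) (h3 : y3 ≤ l)
    (h4 : y4 ≤ l) (h : 2 * l + W611.ff m + m + 1 ≤ d) :
    Al m 0 d ({y1} + {y2} + {y3} + {y4}) := by
  have h5 := al_p1 (t := 0) (d := d) hm [y1, y2, y3, y4] (by omega) (by
    simp only [List.mem_cons, List.not_mem_nil, or_false, forall_eq_or_imp, forall_eq]
    refine ⟨?_, ?_, ?_, ?_⟩ <;> omega) (by
    simp only [List.pairwise_cons, List.mem_cons, List.not_mem_nil, or_false, forall_eq_or_imp,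
      forall_eq, false_imp_iff, implies_true, List.Pairwise.nil, and_true]
    refine ⟨⟨?_, ?_, ?_⟩, ⟨?_, ?_⟩, ?_⟩ <;> omega) (by
    simp only [List.sum_cons, List.sum_nil]
    omega)
  exact h5

/-- a multiplicity may be replaced by a larger one -/
theorem raise {m t d y c : ℕ} {R : Multiset ℕ} (hm : 0 < m) (hc : y + W611.ff m + m + 3 ≤ c)
    (hP1 : Al m t d ({c} + R)) (hP0 : Al m t d ({c - 1} + R))
    (hr : ∀ Y : Multiset ℕ, Y.sum ≤ t →
      TH2.NU.condM (R + Y) + (c + 1).choose 2 ≤ (d + 2).choose 2) : Al m t d ({y} + R) := by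
  have hF := ff_ge m
  have hF2 := ch_le_ff m
  refine al_glue (c := c) hm (by omega) (by omega) ?_ ?_ ?_ hP1 hP0 hr
  · rw [condM_single]
    exact Nat.choose_le_choose 2 (by omega)
  · intro Z hZ
    exact (node1' hm (by omega)).nd Z hZ
  · intro Z hZ _
    exact (node1' hm (by omega)).nd Z hZ

theorem four_ind {m t d l w0 w1 w2 w3 w4 : ℕ} (hm : 0 < m)
    (hR : w0 * (w0 + 1) + w1 * (w1 + 1) + w2 * (w2 + 1) + w3 * (w3 + 1) + w4 * (w4 + 1) +
      t * (t + 1) + (2 * l + W611.ff m + m + 3) * (2 * l + W611.ff m + m + 4) ≤ (d + 1) * (d + 2))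
    (hP : ∀ c, 2 * l + W611.ff m + m + 2 ≤ c → c ≤ 2 * l + W611.ff m + m + 3 →
      Al m t d ({c} + ({w0} + {w1} + {w2} + {w3} + {w4}))) :
    ∀ (N y1 y2 y3 y4 : ℕ), y1 ≤ l → y2 ≤ l → y3 ≤ l → y4 ≤ l →
      (l - y1) + (l - y2) + (l - y3) + (l - y4) ≤ N →
      Al m t d ({y1} + {y2} + {y3} + {y4} + ({w0} + {w1} + {w2} + {w3} + {w4})) := by
  have hF := ff_ge m
  have hF2 := ch_le_ff m
  obtain ⟨F, hFe⟩ : ∃ F, F = W611.ff m := ⟨_, rfl⟩
  intro N
  induction N using Nat.strong_induction_on with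
  | _ N ih =>
    -- one of the multiplicities can be increased
    have step : ∀ y1 y2 y3 y4 : ℕ, y1 ≤ l → y2 ≤ l → y3 ≤ l → y4 ≤ l →
        (l - y1) + (l - y2) + (l - y3) + (l - y4) ≤ N → y1 + W611.ff m + m + 3 ≤ l →
        Al m t d ({y1} + {y2} + {y3} + {y4} + ({w0} + {w1} + {w2} + {w3} + {w4})) := by
      intro y1 y2 y3 y4 h1 h2 h3 h4 hN hx
      have e : ∀ y : ℕ, ({y} + {y2} + {y3} + {y4} + ({w0} + {w1} + {w2} + {w3} + {w4}) : Multiset ℕ) =
          {y} + ({y2} + {y3} + {y4} + ({w0} + {w1} + {w2} + {w3} + {w4})) := fun y => by abel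
      rw [e]
      refine raise hm (c := y1 + W611.ff m + m + 3) le_rfl ?_ ?_ ?_
      · rw [← e]
        exact ih (N - 1) (by omega) _ _ _ _ hx h2 h3 h4 (by omega)
      · rw [← e]
        exact ih (N - 1) (by omega) _ _ _ _ (by omega) h2 h3 h4 (by omega)
      · intro Y hY
        have aY := two_condM_le' hY
        have a0 := two_ch w0
        have a1 := two_ch w1
        have a2 := two_ch w2
        have a3 := two_ch w3
        have a4 := two_ch w4
        have b2 := two_ch y2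
        have b3 := two_ch y3
        have b4 := two_ch y4
        have ac := two_ch (y1 + W611.ff m + m + 3)
        have ad := two_ch (d + 1)
        have k2 : y2 * (y2 + 1) ≤ l * (l + 1) := Nat.mul_le_mul h2 (by omega)
        have k3 : y3 * (y3 + 1) ≤ l * (l + 1) := Nat.mul_le_mul h3 (by omega)
        have k4 : y4 * (y4 + 1) ≤ l * (l + 1) := Nat.mul_le_mul h4 (by omega)
        have kc : (y1 + W611.ff m + m + 3) * (y1 + W611.ff m + m + 3 + 1) ≤ l * (l + 1) :=
          Nat.mul_le_mul hx (by omega)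
        have kk : 4 * (l * (l + 1)) ≤
            (2 * l + W611.ff m + m + 3) * (2 * l + W611.ff m + m + 4) := by
          have : (2 * l) * (2 * l + 2) ≤
              (2 * l + W611.ff m + m + 3) * (2 * l + W611.ff m + m + 4) :=
            Nat.mul_le_mul (by omega) (by omega)
          linarith
        simp only [condM_add, condM_single] at aY ⊢
        have e2 : (d + 1 + 1).choose 2 = (d + 2).choose 2 := rfl
        rw [← e2]
        linarith
    intro y1 y2 y3 y4 h1 h2 h3 h4 hN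
    rcases Nat.lt_or_ge l (y1 + W611.ff m + m + 3) with c1 | c1
    · rcases Nat.lt_or_ge l (y2 + W611.ff m + m + 3) with c2 | c2
      · rcases Nat.lt_or_ge l (y3 + W611.ff m + m + 3) with c3 | c3
        · rcases Nat.lt_or_ge l (y4 + W611.ff m + m + 3) with c4 | c4
          · refine al_glue (c := 2 * l + W611.ff m + m + 3) hm (by omega) (by omega) ?_ ?_ ?_
              (hP _ (by omega) le_rfl) (hP _ (by omega) (by omega)) ?_
            · have b1 := two_ch y1
              have b2 := two_ch y2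
              have b3 := two_ch y3
              have b4 := two_ch y4
              have ac := two_ch (2 * l + W611.ff m + m + 3)
              have k1 : y1 * (y1 + 1) ≤ l * (l + 1) := Nat.mul_le_mul h1 (by omega)
              have k2 : y2 * (y2 + 1) ≤ l * (l + 1) := Nat.mul_le_mul h2 (by omega)
              have k3 : y3 * (y3 + 1) ≤ l * (l + 1) := Nat.mul_le_mul h3 (by omega)
              have k4 : y4 * (y4 + 1) ≤ l * (l + 1) := Nat.mul_le_mul h4 (by omega)
              have kk : (2 * l) * (2 * l + 2) ≤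
                  (2 * l + W611.ff m + m + 3) * (2 * l + W611.ff m + m + 3 + 1) :=
                Nat.mul_le_mul (by omega) (by omega)
              simp only [condM_add, condM_single]
              linarith
            · intro Z hZ
              exact (node4 (l := l) hm h1 h2 h3 h4 (by omega)).nd Z hZ
            · intro Z hZ _
              exact (node4 (l := l) hm h1 h2 h3 h4 (by omega)).nd Z hZ
            · intro Y hY
              have aY := two_condM_le' hY
              have a0 := two_ch w0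
              have a1 := two_ch w1
              have a2 := two_ch w2
              have a3 := two_ch w3
              have a4 := two_ch w4
              have ac := two_ch (2 * l + W611.ff m + m + 3)
              have ad := two_ch (d + 1)
              simp only [condM_add, condM_single] at aY ⊢
              have e2 : (d + 1 + 1).choose 2 = (d + 2).choose 2 := rfl
              have e3 : 2 * l + W611.ff m + m + 3 + 1 = 2 * l + W611.ff m + m + 4 := rfl
              rw [← e2]
              rw [e3] at ac ⊢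
              linarith
          · have e : ({y1} + {y2} + {y3} + {y4} + ({w0} + {w1} + {w2} + {w3} + {w4}) : Multiset ℕ) =
                {y4} + {y1} + {y2} + {y3} + ({w0} + {w1} + {w2} + {w3} + {w4}) := by abel
            rw [e]
            exact step _ _ _ _ h4 h1 h2 h3 (by omega) c4
        · have e : ({y1} + {y2} + {y3} + {y4} + ({w0} + {w1} + {w2} + {w3} + {w4}) : Multiset ℕ) =
              {y3} + {y1} + {y2} + {y4} + ({w0} + {w1} + {w2} + {w3} + {w4}) := by abel
          rw [e]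
          exact step _ _ _ _ h3 h1 h2 h4 (by omega) c3
      · have e : ({y1} + {y2} + {y3} + {y4} + ({w0} + {w1} + {w2} + {w3} + {w4}) : Multiset ℕ) =
            {y2} + {y1} + {y3} + {y4} + ({w0} + {w1} + {w2} + {w3} + {w4}) := by abel
        rw [e]
        exact step _ _ _ _ h2 h1 h3 h4 (by omega) c2
    · exact step _ _ _ _ h1 h2 h3 h4 hN c1

theorem room9 {d l w0 w1 w2 w3 w4 t G a : ℕ} (h01 : w1 ≤ w0) (h12 : w2 ≤ w1) (h23 : w3 ≤ w2)
    (h34 : w4 ≤ w3) (hl : l ≤ w2) (ht : t ≤ G) (hG : 1 ≤ G) (ha : a ≤ 2 * G)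
    (hs : w0 + w1 + w2 ≤ d) (hw : 100 * G ≤ w2) (hsl : w0 + 2 * l + 5 * G ≤ d) :
    w0 * (w0 + 1) + w1 * (w1 + 1) + w2 * (w2 + 1) + w3 * (w3 + 1) + w4 * (w4 + 1) +
      t * (t + 1) + (2 * l + a) * (2 * l + a + 1) ≤ (d + 1) * (d + 2) := by
  obtain ⟨τ, hτ⟩ : ∃ τ, d = w0 + w1 + w2 + τ := ⟨_, (Nat.add_sub_of_le hs).symm⟩
  obtain ⟨q, hq⟩ : ∃ q, w2 = l + q := ⟨_, (Nat.add_sub_of_le hl).symm⟩
  obtain ⟨r, hr⟩ : ∃ r, w1 = w2 + r := ⟨_, (Nat.add_sub_of_le h12).symm⟩
  obtain ⟨s, hs'⟩ : ∃ s, w0 = w1 + s := ⟨_, (Nat.add_sub_of_le h01).symm⟩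
  have hS : 5 * G ≤ 2 * q + r + τ := by omega
  have k3 : w3 * w3 ≤ w2 * w2 := Nat.mul_le_mul h23 h23
  have k4 : w4 * w4 ≤ w2 * w2 := Nat.mul_le_mul (by omega) (by omega)
  have k5 : t * t ≤ G * G := Nat.mul_le_mul ht ht
  have k6 : (2 * l + a) * (2 * l + a) ≤ (2 * l + 2 * G) * (2 * l + 2 * G) :=
    Nat.mul_le_mul (by omega) (by omega)
  have k7 : l * (5 * G) ≤ l * (2 * q + r + τ) := Nat.mul_le_mul_left _ hS
  have k8 : 100 * G * G ≤ (l + q) * G := Nat.mul_le_mul_right _ (by omega)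
  have k9 : q * G ≤ q * q + G * G := by
    rcases Nat.le_total q G with h | h
    · have := Nat.mul_le_mul_right G h
      omega
    · have := Nat.mul_le_mul_left q h
      omega
  have lin : w0 + w1 + w2 + w3 + w4 + t + (2 * l + a) ≤ 3 * d := by omega
  have key : d * d = w0 * w0 + w1 * w1 + w2 * w2 + 2 * (w2 * w2) + 4 * (l * l) +
      l * (8 * q + 8 * r + 4 * s + 6 * τ) + (4 * (q * q) + 2 * (r * r) + 8 * (q * r) + 4 * (q * s) +
        2 * (r * s) + τ * τ + τ * (6 * q + 4 * r + 2 * s)) := by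
    subst hτ hs' hr hq
    ring
  have k10 : 4 * (l * (2 * q + r + τ)) ≤ l * (8 * q + 8 * r + 4 * s + 6 * τ) := by
    rw [← mul_assoc, mul_comm 4 l, mul_assoc]
    exact Nat.mul_le_mul_left _ (by omega)
  have k11 : 4 * (q * q) ≤ 4 * (q * q) + 2 * (r * r) + 8 * (q * r) + 4 * (q * s) +
        2 * (r * s) + τ * τ + τ * (6 * q + 4 * r + 2 * s) := by
    have := Nat.zero_le (2 * (r * r) + 8 * (q * r) + 4 * (q * s) + 2 * (r * s) + τ * τ +
      τ * (6 * q + 4 * r + 2 * s))
    omega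
  have k12 : (2 * l + 2 * G) * (2 * l + 2 * G) = 4 * (l * l) + 8 * (l * G) + 4 * (G * G) := by ring
  have k13 : l * (5 * G) = 5 * (l * G) := by ring
  have k14 : (l + q) * G = l * G + q * G := by ring
  have k15 : 100 * G * G = 100 * (G * G) := by ring
  have e1 : ∀ x : ℕ, x * (x + 1) = x * x + x := fun x => by ring
  have e2 : (d + 1) * (d + 2) = d * d + 3 * d + 2 := by ring
  have e3 : (2 * l + a) * (2 * l + a + 1) = (2 * l + a) * (2 * l + a) + (2 * l + a) := by ring
  rw [e1, e1, e1, e1, e1, e1, e2, e3]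
  have z1 := Nat.zero_le (l * G)
  have z2 := Nat.zero_le (q * q)
  obtain ⟨X, hX⟩ : ∃ X, X = l * (8 * q + 8 * r + 4 * s + 6 * τ) := ⟨_, rfl⟩
  obtain ⟨Y, hY⟩ : ∃ Y, Y = 4 * (q * q) + 2 * (r * r) + 8 * (q * r) + 4 * (q * s) +
        2 * (r * s) + τ * τ + τ * (6 * q + 4 * r + 2 * s) := ⟨_, rfl⟩
  obtain ⟨V, hV⟩ : ∃ V, V = l * (2 * q + r + τ) := ⟨_, rfl⟩
  obtain ⟨W, hW⟩ : ∃ W, W = (2 * l + a) * (2 * l + a) := ⟨_, rfl⟩
  rw [← hX, ← hY] at key
  rw [← hX, ← hV] at k10
  rw [← hY] at k11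
  rw [← hV, k13] at k7
  rw [← hW, k12] at k6
  rw [← hW]
  rw [k14, k15] at k8
  linarith

/-- **Nine arbitrary multiplicities.** -/
theorem main9 {m t d w0 w1 w2 w3 w4 w5 w6 w7 w8 : ℕ} (hm : 0 < m) (h01 : w1 ≤ w0) (h12 : w2 ≤ w1)
    (h23 : w3 ≤ w2) (h34 : w4 ≤ w3) (h45 : w5 ≤ w4) (h56 : w6 ≤ w5) (h67 : w7 ≤ w6)
    (h78 : w8 ≤ w7) (hs : w0 + w1 + w2 ≤ d) (hw : 100 * (W611.ff m + t + 1) ≤ w2)
    (hsl : w0 + 2 * w5 + 5 * (W611.ff m + t + 1) ≤ d) :
    Al m t d ({w0} + {w1} + {w2} + {w3} + {w4} + {w5} + {w6} + {w7} + {w8}) := by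
  have hF := ff_ge m
  rcases Nat.lt_or_ge w3 (W611.ff m + t) with h3 | h3
  · -- one more multiplicity in the tail
    have h1 := main8 (m := m) (t := t + w8) (d := d) hm h01 h12 h23 h34 h45 h56 h67 hs (by omega)
    intro Y Z hY hZ
    have h2 := h1 ({w8} + Y) Z (by
      rw [Multiset.sum_add, Multiset.sum_singleton]
      omega) hZ
    rw [← add_assoc] at h2
    exact h2
  · obtain ⟨l, hl⟩ : ∃ l, l = max w5 ((w4 + t + W611.ff m + m) / 2) := ⟨_, rfl⟩
    have hl5 : w5 ≤ l := hl ▸ le_max_left _ _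
    have hl4 : (w4 + t + W611.ff m + m) / 2 ≤ l := hl ▸ le_max_right _ _
    have hlu : l = w5 ∨ l = (w4 + t + W611.ff m + m) / 2 := by
      rcases max_choice w5 ((w4 + t + W611.ff m + m) / 2) with h | h
      · left
        omega
      · right
        omega
    have e : ({w0} + {w1} + {w2} + {w3} + {w4} + {w5} + {w6} + {w7} + {w8} : Multiset ℕ) =
        {w5} + {w6} + {w7} + {w8} + ({w0} + {w1} + {w2} + {w3} + {w4}) := by abel
    rw [e]
    have hsl' : w0 + 2 * l + 5 * (W611.ff m + t + 1) ≤ d := by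
      rcases hlu with h | h
      · rw [h]
        exact hsl
      · omega
    refine four_ind hm ?_ ?_ _ _ _ _ _ hl5 (by omega) (by omega) (by omega) le_rfl
    · have h9 := room9 (d := d) (l := l) (t := t) (G := W611.ff m + t + 1)
        (a := W611.ff m + m + 3) h01 h12 h23 h34 (by omega) (by omega) (by omega) (by omega) hs hw
        hsl'
      have e1 : 2 * l + (W611.ff m + m + 3) = 2 * l + W611.ff m + m + 3 := by ring
      rw [e1] at h9
      exact h9
    · intro c hc1 hc2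
      exact par6 hm h01 h12 h23 h34 hs (by omega) h3 (by omega) (by omega)

end Pool.Agent.J4.H6.NC
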