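import Pool.Agent.J4.H6.NC.Top8

set_option autoImplicit false

/-!
# Nine arbitrary multiplicities
-/

namespace Pool.Agent.J4.H6.NC

open Pool.Agent.TH641.UM Pool.Agent.TH2.NU Pool.Agent.J4.H25.Gl Pool.Agent.J4.H6.NM

theorem lin9 {d w0 w1 w2 w3 w4 w5 w6 w7 w8 G : ℤ} (h01 : w1 ≤ w0) (h12 : w2 ≤ w1) (h23 : w3 ≤ w2)
    (h34 : w4 ≤ w3) (h45 : w5 ≤ w4) (hs : w0 + w1 + w2 ≤ d) (g1 : d < w0 + 2 * w5 + 5 * G)
    (g2 : w0 < w1 + 24 * G) (g3 : w5 < w6 + 476 * G) (g4 : w6 < w7 + 8976 * G)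
    (g5 : w7 < w8 + 155584 * G) :
    3 * d < w0 + w1 + w2 + w3 + w4 + w5 + w6 + w7 + w8 + 180000 * G := by
  linarith

/-- **Nine arbitrary multiplicities.** -/
theorem nine {m t d w0 w1 w2 w3 w4 w5 w6 w7 w8 : ℕ} (hm : 0 < m) (h01 : w1 ≤ w0) (h12 : w2 ≤ w1)
    (h23 : w3 ≤ w2) (h34 : w4 ≤ w3) (h45 : w5 ≤ w4) (h56 : w6 ≤ w5) (h67 : w7 ≤ w6)
    (h78 : w8 ≤ w7) (hs : w0 + w1 + w2 ≤ d) (hw : 100 * (W611.ff m + t + 1) ≤ w2)
    (hκ : w0 + w1 + w2 + w3 + w4 + w5 + w6 + w7 + w8 + 180000 * (W611.ff m + t + 1) ≤ 3 * d) :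
    Al m t d ({w0} + {w1} + {w2} + {w3} + {w4} + {w5} + {w6} + {w7} + {w8}) := by
  rcases Nat.lt_or_ge w8 (W611.ff m + t + 1) with h8 | h8
  · have h1 := main8 (m := m) (t := t + w8) (d := d) hm h01 h12 h23 h34 h45 h56 h67 hs (by omega)
    intro Y Z hY hZ
    have h2 := h1 ({w8} + Y) Z (by
      rw [Multiset.sum_add, Multiset.sum_singleton]
      omega) hZ
    rw [← add_assoc] at h2
    exact h2
  · refine top8 hm h01 h12 h23 h34 h45 h56 h67 h78 hs h8 hw ?_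
    by_contra hcon
    push Not at hcon
    obtain ⟨g1, g2, g3, g4, g5⟩ := hcon
    have h := lin9 (d := (d : ℤ)) (w0 := (w0 : ℤ)) (w1 := (w1 : ℤ)) (w2 := (w2 : ℤ))
      (w3 := (w3 : ℤ)) (w4 := (w4 : ℤ)) (w5 := (w5 : ℤ)) (w6 := (w6 : ℤ)) (w7 := (w7 : ℤ))
      (w8 := (w8 : ℤ)) (G := ((W611.ff m + t + 1 : ℕ) : ℤ)) (by exact_mod_cast h01)
      (by exact_mod_cast h12) (by exact_mod_cast h23) (by exact_mod_cast h34)
      (by exact_mod_cast h45) (by exact_mod_cast hs) (by exact_mod_cast g1)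
      (by exact_mod_cast g2) (by exact_mod_cast g3) (by exact_mod_cast g4)
      (by exact_mod_cast g5)
    have h' : 3 * d < w0 + w1 + w2 + w3 + w4 + w5 + w6 + w7 + w8 +
        180000 * (W611.ff m + t + 1) := by exact_mod_cast h
    exact absurd hκ (not_le.2 h')

end Pool.Agent.J4.H6.NC
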