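import Pool.Agent.J4.H6.NC.Fold

set_option autoImplicit false

/-!
# Classes whose largest multiplicity is much larger than the others
-/

namespace Pool.Agent.J4.H6.NC

open Pool.Agent.TH641.UM Pool.Agent.TH2.NU Pool.Agent.J4.H25.Gl Pool.Agent.J4.H6.NM

theorem raise' {m t d y c : ℕ} {R : Multiset ℕ} (hm : 0 < m) (hc : y + W611.ff m + m + 3 ≤ c)
    (hP : ∀ c', c - 1 ≤ c' → c' ≤ c → Al m t d ({c'} + R))
    (hr : ∀ Y : Multiset ℕ, Y.sum ≤ t →
      TH2.NU.condM (R + Y) + (c + 1).choose 2 ≤ (d + 2).choose 2) : Al m t d ({y} + R) :=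
  raise hm hc (hP c (by omega) le_rfl) (hP (c - 1) le_rfl (by omega)) hr

/-- Four multiplicities are increased. -/
theorem raise4 {m t d x2 x3 x4 x5 y : ℕ} {R : Multiset ℕ} (hm : 0 < m)
    (hy : W611.ff m + m + 3 ≤ y)
    (hr : ∀ Y : Multiset ℕ, Y.sum ≤ t → TH2.NU.condM (R + Y) + (x2 + y + 1).choose 2 +
      (x3 + y + 1).choose 2 + (x4 + y + 1).choose 2 + (x5 + y + 1).choose 2 ≤ (d + 2).choose 2)
    (key : ∀ c2 c3 c4 c5, x2 + y - 1 ≤ c2 → c2 ≤ x2 + y → x3 + y - 1 ≤ c3 → c3 ≤ x3 + y →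
      x4 + y - 1 ≤ c4 → c4 ≤ x4 + y → x5 + y - 1 ≤ c5 → c5 ≤ x5 + y →
      Al m t d ({c2} + {c3} + {c4} + {c5} + R)) :
    Al m t d ({x2} + {x3} + {x4} + {x5} + R) := by
  have mono : ∀ a b : ℕ, a ≤ b → (a + 1).choose 2 ≤ (b + 1).choose 2 := fun a b h =>
    Nat.choose_le_choose 2 (by omega)
  have s5 : ∀ c2 c3 c4, x2 + y - 1 ≤ c2 → c2 ≤ x2 + y → x3 + y - 1 ≤ c3 → c3 ≤ x3 + y →
      x4 + y - 1 ≤ c4 → c4 ≤ x4 + y → Al m t d ({c2} + {c3} + {c4} + {x5} + R) := by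
    intro c2 c3 c4 h2 h2' h3 h3' h4 h4'
    have e : ∀ u : ℕ, ({c2} + {c3} + {c4} + {u} + R : Multiset ℕ) = {u} + ({c2} + {c3} + {c4} + R) :=
      fun u => by abel
    rw [e]
    refine raise' hm (c := x5 + y) (by omega) (fun c' k1 k2 => ?_) (fun Y hY => ?_)
    · rw [← e]
      exact key _ _ _ _ h2 h2' h3 h3' h4 h4' k1 k2
    · have := hr Y hY
      have m2 := mono _ _ h2'
      have m3 := mono _ _ h3'
      have m4 := mono _ _ h4'
      simp only [condM_add, condM_single] at this ⊢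
      omega
  have s4 : ∀ c2 c3, x2 + y - 1 ≤ c2 → c2 ≤ x2 + y → x3 + y - 1 ≤ c3 → c3 ≤ x3 + y →
      Al m t d ({c2} + {c3} + {x4} + {x5} + R) := by
    intro c2 c3 h2 h2' h3 h3'
    have e : ∀ u : ℕ, ({c2} + {c3} + {u} + {x5} + R : Multiset ℕ) = {u} + ({c2} + {c3} + {x5} + R) :=
      fun u => by abel
    rw [e]
    refine raise' hm (c := x4 + y) (by omega) (fun c' k1 k2 => ?_) (fun Y hY => ?_)
    · rw [← e]
      exact s5 _ _ _ h2 h2' h3 h3' k1 k2
    · have := hr Y hY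
      have m2 := mono _ _ h2'
      have m3 := mono _ _ h3'
      have m5 := mono x5 (x5 + y) (by omega)
      simp only [condM_add, condM_single] at this ⊢
      omega
  have s3 : ∀ c2, x2 + y - 1 ≤ c2 → c2 ≤ x2 + y →
      Al m t d ({c2} + {x3} + {x4} + {x5} + R) := by
    intro c2 h2 h2'
    have e : ∀ u : ℕ, ({c2} + {u} + {x4} + {x5} + R : Multiset ℕ) = {u} + ({c2} + {x4} + {x5} + R) :=
      fun u => by abel
    rw [e]
    refine raise' hm (c := x3 + y) (by omega) (fun c' k1 k2 => ?_) (fun Y hY => ?_)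
    · rw [← e]
      exact s4 _ _ h2 h2' k1 k2
    · have := hr Y hY
      have m2 := mono _ _ h2'
      have m4 := mono x4 (x4 + y) (by omega)
      have m5 := mono x5 (x5 + y) (by omega)
      simp only [condM_add, condM_single] at this ⊢
      omega
  have e : ∀ u : ℕ, ({u} + {x3} + {x4} + {x5} + R : Multiset ℕ) = {u} + ({x3} + {x4} + {x5} + R) :=
    fun u => by abel
  rw [e]
  refine raise' hm (c := x2 + y) (by omega) (fun c' k1 k2 => ?_) (fun Y hY => ?_)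
  · rw [← e]
    exact s3 _ k1 k2
  · have := hr Y hY
    have m3 := mono x3 (x3 + y) (by omega)
    have m4 := mono x4 (x4 + y) (by omega)
    have m5 := mono x5 (x5 + y) (by omega)
    simp only [condM_add, condM_single] at this ⊢
    omega

/-- the room for the four raised multiplicities -/
theorem roomQ {w0 w1 w2 w3 w4 w5 w6 w7 w8 t G A : ℤ} (h12 : w2 ≤ w1)
    (h23 : w3 ≤ w2) (h34 : w4 ≤ w3) (h45 : w5 ≤ w4) (h56 : w6 ≤ w5) (h67 : w7 ≤ w6) (h78 : w8 ≤ w7)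
    (h8 : 0 ≤ w8) (ht0 : 0 ≤ t) (ht : t ≤ G) (hG : 1 ≤ G) (hb : w1 + 24 * G ≤ w0)
    (hs : w1 + w2 ≤ A) (hA : A ≤ 2 * w5 + 5 * G) (hw : 90 * G ≤ w5) :
    w0 * (w0 + 1) + w1 * (w1 + 1) + (w2 + 6 * G) * (w2 + 6 * G + 1) +
      (w3 + 6 * G) * (w3 + 6 * G + 1) + (w4 + 6 * G) * (w4 + 6 * G + 1) +
      (w5 + 6 * G) * (w5 + 6 * G + 1) + w6 * (w6 + 1) + w7 * (w7 + 1) + w8 * (w8 + 1) + t * (t + 1) ≤
      (w0 + A + 1) * (w0 + A + 2) := by
  have sq4 : ∀ x : ℤ, 0 ≤ x → 2 * x ≤ A → 4 * ((x + 6 * G) * (x + 6 * G)) ≤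
      (A + 12 * G) * (A + 12 * G) := by
    intro x hx hxA
    have h1 : (2 * x + 12 * G) * (2 * x + 12 * G) ≤ (A + 12 * G) * (A + 12 * G) :=
      mul_self_le_mul_self (by linarith) (by linarith)
    linarith [h1, (by ring : (2 * x + 12 * G) * (2 * x + 12 * G) = 4 * ((x + 6 * G) * (x + 6 * G)))]
  have sq0 : ∀ x : ℤ, 0 ≤ x → 2 * x ≤ A → 4 * (x * x) ≤ A * A := by
    intro x hx hxA
    have h1 : (2 * x) * (2 * x) ≤ A * A := mul_self_le_mul_self (by linarith) (by linarith)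
    linarith [h1, (by ring : (2 * x) * (2 * x) = 4 * (x * x))]
  have a2 := sq4 w2 (by linarith) (by linarith)
  have a3 := sq4 w3 (by linarith) (by linarith)
  have a4 := sq4 w4 (by linarith) (by linarith)
  have a5 := sq4 w5 (by linarith) (by linarith)
  have a6 := sq0 w6 (by linarith) (by linarith)
  have a7 := sq0 w7 (by linarith) (by linarith)
  have a8 := sq0 w8 (by linarith) (by linarith)
  have at' : t * t ≤ G * G := mul_self_le_mul_self ht0 ht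
  have q1 : 0 ≤ (2 * w1 - A + 5 * G) * (2 * A + 10 * G - (2 * w1 - A + 5 * G)) :=
    mul_nonneg (by linarith) (by linarith)
  have q2 : 0 ≤ (w0 - w1 - 24 * G) * A := mul_nonneg (by linarith) (by linarith)
  have q3 : 0 ≤ (A - 100 * G) * G := mul_nonneg (by linarith) (by linarith)
  have q4 : 0 ≤ G * G := mul_nonneg (by linarith) (by linarith)
  have lin : w0 + w1 + w2 + w3 + w4 + w5 + 24 * G + w6 + w7 + w8 + t ≤ 3 * (w0 + A) := by linarith
  nlinarith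

/-- the room for the group of four -/
theorem roomP {f w1 w6 w7 w8 t G A C : ℤ} (hf : w1 ≤ f) (h67 : w7 ≤ w6) (h78 : w8 ≤ w7)
    (h8 : 0 ≤ w8) (ht0 : 0 ≤ t) (ht : t ≤ G) (hG : 1 ≤ G) (h61 : w6 ≤ w1) (h6 : 2 * w6 ≤ A)
    (hA1 : A ≤ 2 * w1 + 5 * G) (h1A : w1 ≤ A) (hA : 100 * G ≤ A) (hC0 : 0 ≤ C)
    (hC : C + 5 * G ≤ A) :
    f * (f + 1) + w1 * (w1 + 1) + w6 * (w6 + 1) + w7 * (w7 + 1) + w8 * (w8 + 1) + t * (t + 1) +
      C * (C + 1) ≤ (f + A + 1) * (f + A + 2) := by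
  have sq0 : ∀ x : ℤ, 0 ≤ x → 2 * x ≤ A → 4 * (x * x) ≤ A * A := by
    intro x hx hxA
    have h1 : (2 * x) * (2 * x) ≤ A * A := mul_self_le_mul_self (by linarith) (by linarith)
    linarith [h1, (by ring : (2 * x) * (2 * x) = 4 * (x * x))]
  have a6 := sq0 w6 (by linarith) (by linarith)
  have a7 := sq0 w7 (by linarith) (by linarith)
  have a8 := sq0 w8 (by linarith) (by linarith)
  have at' : t * t ≤ G * G := mul_self_le_mul_self ht0 ht
  have aC : C * C ≤ (A - 5 * G) * (A - 5 * G) := mul_self_le_mul_self hC0 (by linarith)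
  have q1 : 0 ≤ (2 * w1 - A + 5 * G) * (2 * A + 10 * G - (2 * w1 - A + 5 * G)) :=
    mul_nonneg (by linarith) (by linarith)
  have q2 : 0 ≤ (f - w1) * A := mul_nonneg (by linarith) (by linarith)
  have q3 : 0 ≤ (A - 100 * G) * G := mul_nonneg (by linarith) (by linarith)
  have q4 : 0 ≤ G * G := mul_nonneg (by linarith) (by linarith)
  have lin : f + w1 + w6 + w7 + w8 + t + C ≤ 3 * (f + A) := by linarith
  nlinarith

/-- **The largest multiplicity is much larger than the others, or the class is not near the face.** -/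
theorem topP {m t d w0 w1 w2 w3 w4 w5 w6 w7 w8 : ℕ} (hm : 0 < m) (h01 : w1 ≤ w0) (h12 : w2 ≤ w1)
    (h23 : w3 ≤ w2) (h34 : w4 ≤ w3) (h45 : w5 ≤ w4) (h56 : w6 ≤ w5) (h67 : w7 ≤ w6)
    (h78 : w8 ≤ w7) (hs : w0 + w1 + w2 ≤ d) (h8 : W611.ff m + t + 1 ≤ w8)
    (hw : 100 * (W611.ff m + t + 1) ≤ w2)
    (hsl : w0 + 2 * w5 + 5 * (W611.ff m + t + 1) ≤ d ∨ w1 + 24 * (W611.ff m + t + 1) ≤ w0) :
    Al m t d ({w0} + {w1} + {w2} + {w3} + {w4} + {w5} + {w6} + {w7} + {w8}) := by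
  have hF := ff_ge m
  rcases Nat.lt_or_ge d (w0 + 2 * w5 + 5 * (W611.ff m + t + 1)) with hσ | hσ
  · have hb : w1 + 24 * (W611.ff m + t + 1) ≤ w0 := by
      rcases hsl with h | h
      · omega
      · exact h
    obtain ⟨G, hG⟩ : ∃ G, G = W611.ff m + t + 1 := ⟨_, rfl⟩
    obtain ⟨A, hA⟩ : ∃ A, A = d - w0 := ⟨_, rfl⟩
    have hd : d = w0 + A := by omega
    obtain ⟨F, hFe⟩ : ∃ F, F = W611.ff m := ⟨_, rfl⟩
    rw [← hG] at hσ hb hw h8
    rw [← hFe] at hF hG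
    have e : ({w0} + {w1} + {w2} + {w3} + {w4} + {w5} + {w6} + {w7} + {w8} : Multiset ℕ) =
        {w2} + {w3} + {w4} + {w5} + ({w0} + {w1} + {w6} + {w7} + {w8}) := by abel
    rw [e]
    refine raise4 hm (y := 6 * G) (by rw [← hFe]; omega) ?_ ?_
    · intro Y hY
      have aY := two_condM_le' hY
      have a0 := two_ch w0
      have a1 := two_ch w1
      have a2 := two_ch (w2 + 6 * G)
      have a3 := two_ch (w3 + 6 * G)
      have a4 := two_ch (w4 + 6 * G)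
      have a5 := two_ch (w5 + 6 * G)
      have a6 := two_ch w6
      have a7 := two_ch w7
      have a8 := two_ch w8
      have ad := two_ch (d + 1)
      have hr := roomQ (w0 := (w0 : ℤ)) (w1 := (w1 : ℤ)) (w2 := (w2 : ℤ)) (w3 := (w3 : ℤ))
        (w4 := (w4 : ℤ)) (w5 := (w5 : ℤ)) (w6 := (w6 : ℤ)) (w7 := (w7 : ℤ)) (w8 := (w8 : ℤ))
        (t := (t : ℤ)) (G := (G : ℤ)) (A := (A : ℤ)) (by omega) (by omega) (by omega) (by omega)
        (by omega) (by omega) (by omega) (by omega) (by omega) (by omega) (by omega) (by omega)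
        (by omega) (by omega) (by omega)
      have hr' : w0 * (w0 + 1) + w1 * (w1 + 1) + (w2 + 6 * G) * (w2 + 6 * G + 1) +
          (w3 + 6 * G) * (w3 + 6 * G + 1) + (w4 + 6 * G) * (w4 + 6 * G + 1) +
          (w5 + 6 * G) * (w5 + 6 * G + 1) + w6 * (w6 + 1) + w7 * (w7 + 1) + w8 * (w8 + 1) +
          t * (t + 1) ≤ (w0 + A + 1) * (w0 + A + 2) := by exact_mod_cast hr
      rw [← hd] at hr'
      have e2 : (d + 1 + 1).choose 2 = (d + 2).choose 2 := rfl
      simp only [condM_add, condM_single] at aY ⊢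
      rw [← e2]
      have e3 : (d + 1) * (d + 1 + 1) = (d + 1) * (d + 2) := rfl
      rw [e3] at ad
      linarith
    · intro c2 c3 c4 c5 k2 k2' k3 k3' k4 k4' k5 k5'
      have e1 : ({c2} + {c3} + {c4} + {c5} + ({w0} + {w1} + {w6} + {w7} + {w8}) : Multiset ℕ) =
          {w0} + {c2} + {c3} + ({c4} + {c5} + {w1} + {w6} + {w7} + {w8}) := by abel
      rw [e1]
      refine al_cr (by omega) (by omega) (by omega) ?_
      obtain ⟨f1, hf1⟩ : ∃ f1, f1 = d - (c2 + c3) := ⟨_, rfl⟩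
      obtain ⟨d1, hd1⟩ : ∃ d1, d1 = 2 * d - (w0 + c2 + c3) := ⟨_, rfl⟩
      obtain ⟨z3, hz3⟩ : ∃ z3, z3 = d - (w0 + c3) := ⟨_, rfl⟩
      obtain ⟨z2, hz2⟩ : ∃ z2, z2 = d - (w0 + c2) := ⟨_, rfl⟩
      rw [← hf1, ← hd1, ← hz3, ← hz2]
      have e2 : ({f1} + {z3} + {z2} + ({c4} + {c5} + {w1} + {w6} + {w7} + {w8}) : Multiset ℕ) =
          {f1} + {c4} + {c5} + ({z3} + {z2} + {w1} + {w6} + {w7} + {w8}) := by abel
      rw [e2]
      have hdf : d1 = f1 + A := by omega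
      refine al_cr (by omega) (by omega) (by omega) ?_
      obtain ⟨f, hf⟩ : ∃ f, f = d1 - (c4 + c5) := ⟨_, rfl⟩
      obtain ⟨d2, hd2⟩ : ∃ d2, d2 = 2 * d1 - (f1 + c4 + c5) := ⟨_, rfl⟩
      obtain ⟨z5, hz5⟩ : ∃ z5, z5 = d1 - (f1 + c5) := ⟨_, rfl⟩
      obtain ⟨z4, hz4⟩ : ∃ z4, z4 = d1 - (f1 + c4) := ⟨_, rfl⟩
      rw [← hf, ← hd2, ← hz5, ← hz4]
      have e4 : ({f} + {z5} + {z4} + ({z3} + {z2} + {w1} + {w6} + {w7} + {w8}) : Multiset ℕ) =
          {z2} + {z3} + {z4} + {z5} + ({f} + {w1} + {w6} + {w7} + {w8}) := by abel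
      rw [e4]
      have hd2f : d2 = f + A := by omega
      have hfw : w1 ≤ f := by omega
      obtain ⟨l, hl⟩ : ∃ l, l + w5 + 6 * G = A + 1 := ⟨A + 1 - (w5 + 6 * G), by omega⟩
      obtain ⟨C, hC⟩ : ∃ C, C = 2 * l + W611.ff m + m + 3 := ⟨_, rfl⟩
      rw [← hFe] at hC
      have hCA : C + 5 * G ≤ A := by omega
      refine four_ind (l := l) hm ?_ ?_ _ _ _ _ _ (by omega) (by omega) (by omega) (by omega) le_rfl
      · have hr := roomP (f := (f : ℤ)) (w1 := (w1 : ℤ)) (w6 := (w6 : ℤ)) (w7 := (w7 : ℤ))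
          (w8 := (w8 : ℤ)) (t := (t : ℤ)) (G := (G : ℤ)) (A := (A : ℤ)) (C := (C : ℤ)) (by omega)
          (by omega) (by omega) (by omega) (by omega) (by omega) (by omega) (by omega) (by omega)
          (by omega) (by omega) (by omega) (by omega) (by omega)
        have hr' : f * (f + 1) + w1 * (w1 + 1) + w6 * (w6 + 1) + w7 * (w7 + 1) + w8 * (w8 + 1) +
            t * (t + 1) + C * (C + 1) ≤ (f + A + 1) * (f + A + 2) := by exact_mod_cast hr
        rw [← hd2f] at hr'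
        have e5 : 2 * l + W611.ff m + m + 4 = C + 1 := by rw [hC, hFe]
        have e6 : 2 * l + W611.ff m + m + 3 = C := by rw [hC, hFe]
        rw [e5, e6]
        exact hr'
      · intro c hc1 hc2
        rw [← hFe] at hc1 hc2
        refine par6 hm hfw (by omega) h67 h78 (by omega) (by omega) ?_ ?_ ?_
        · rw [← hFe]
          omega
        · rw [← hFe]
          omega
        · rw [← hFe]
          omega
  · exact main9 hm h01 h12 h23 h34 h45 h56 h67 h78 hs hw hσ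

end Pool.Agent.J4.H6.NC
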