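import Pool.Agent.J4.H6.NC.Top7

set_option autoImplicit false

/-!
# Classes near the anticanonical class of eight points
-/

namespace Pool.Agent.J4.H6.NC

open Pool.Agent.TH641.UM Pool.Agent.TH2.NU Pool.Agent.J4.H25.Gl Pool.Agent.W609.CR
  Pool.Agent.TH167.SH Pool.Agent.J4.H6.NM

/-- self-intersection and anticanonical degree of a standard class, relative to the last multiplicity -/
theorem rel8 {d u0 u1 u2 u3 u4 u5 u6 u7 : ℤ} (h01 : u1 ≤ u0) (h12 : u2 ≤ u1) (h23 : u3 ≤ u2) (h34 : u4 ≤ u3) (h45 : u5 ≤ u4) (h56 : u6 ≤ u5) (h67 : u7 ≤ u6)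
    (hs : u0 + u1 + u2 ≤ d) :
    (3 * d - (u0 + u1 + u2 + u3 + u4 + u5 + u6 + u7)) ^ 2 -
        1 * (d ^ 2 - (u0 ^ 2 + u1 ^ 2 + u2 ^ 2 + u3 ^ 2 + u4 ^ 2 + u5 ^ 2 + u6 ^ 2 + u7 ^ 2)) ≤
      (3 * d - (u0 + u1 + u2 + u3 + u4 + u5 + u6 + u7) - 1 * u7) ^ 2 ∧
    1 * u7 ^ 2 + 2 * u7 * (3 * d - (u0 + u1 + u2 + u3 + u4 + u5 + u6 + u7) - 1 * u7) ≤
      d ^ 2 - (u0 ^ 2 + u1 ^ 2 + u2 ^ 2 + u3 ^ 2 + u4 ^ 2 + u5 ^ 2 + u6 ^ 2 + u7 ^ 2) := by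
  have h := sq7 (e := d - 3 * u7) (a0 := u0 - u7) (a1 := u1 - u7) (a2 := u2 - u7) (a3 := u3 - u7) (a4 := u4 - u7) (a5 := u5 - u7) (a6 := u6 - u7) (by linarith) (by linarith) (by linarith) (by linarith) (by linarith) (by linarith) (by linarith) (by linarith)
  constructor <;> linarith

theorem lin8 {d u0 u1 u2 u3 u4 u5 u6 u7 G : ℤ} (h01 : u1 ≤ u0) (h12 : u2 ≤ u1) (h23 : u3 ≤ u2) (h34 : u4 ≤ u3) (h45 : u5 ≤ u4) (h56 : u6 ≤ u5) (h67 : u7 ≤ u6)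
    (hs : u0 + u1 + u2 ≤ d) (g1 : d < u0 + 2 * u5 + 5 * G) (g2 : u0 < u1 + 24 * G) (g3 : u5 < u6 + 476 * G) (g4 : u6 < u7 + 8976 * G) :
    0 ≤ 3 * d - (u0 + u1 + u2 + u3 + u4 + u5 + u6 + u7) - 1 * u7 ∧
    3 * d - (u0 + u1 + u2 + u3 + u4 + u5 + u6 + u7) - 1 * u7 ≤ 19448 * G := by
  constructor <;> linarith

theorem fold8 {m t G w8 : ℕ} {κ s : ℤ} (hm : 0 < m) (hG : G = W611.ff m + t + 1)
    (h8 : G ≤ w8) (p1 : 0 ≤ κ) (p2 : κ ^ 2 ≤ (1 + 1) * s)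
    (n1 : (19448 * (G : ℤ)) ^ 2 < κ ^ 2 - 1 * s)
    (hl : ∀ u : ℤ, (1 * u - κ) ^ 2 ≤ (1 + 1) * (κ ^ 2 - 1 * s) → (w8 : ℤ) ≤ u ∧ 100 * (G : ℤ) ≤ u)
    (d : ℕ) (v : Fin 8 → ℕ) (hk : kk d v = κ) (hs : ip d v d v = s) :
    Al m t d (ms v + {w8}) := by
  refine reduceD (κ := κ) (s := s) (fun d' v' k1 k2 a b hab =>
    pairD (D := 1) (Or.inl rfl) (by norm_num) k1 k2 p1 p2 hab) ?_ d v hk hs
  intro d' v' anti std k1 k2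
  have c01 : v' 1 ≤ v' 0 := anti (by decide)
  have c12 : v' 2 ≤ v' 1 := anti (by decide)
  have c23 : v' 3 ≤ v' 2 := anti (by decide)
  have c34 : v' 4 ≤ v' 3 := anti (by decide)
  have c45 : v' 5 ≤ v' 4 := anti (by decide)
  have c56 : v' 6 ≤ v' 5 := anti (by decide)
  have c67 : v' 7 ≤ v' 6 := anti (by decide)
  have cs : v' 0 + v' 1 + v' 2 ≤ d' := std ![0, 1, 2] (by decide)
  obtain ⟨l1, l2⟩ := hl _ (oneD (Or.inl rfl) (by norm_num) k1 k2 7)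
  have l1' : w8 ≤ v' 7 := by exact_mod_cast l1
  have l2' : 100 * G ≤ v' 7 := by exact_mod_cast l2
  have b1 : 3 * (d' : ℤ) - (v' 0 + v' 1 + v' 2 + v' 3 + v' 4 + v' 5 + v' 6 + v' 7) = κ := by
    rw [← k1]
    unfold kk
    rw [Fin.sum_univ_eight]
  have b2 : (d' : ℤ) ^ 2 - ((v' 0 : ℤ) ^ 2 + (v' 1 : ℤ) ^ 2 + (v' 2 : ℤ) ^ 2 + (v' 3 : ℤ) ^ 2 + (v' 4 : ℤ) ^ 2 + (v' 5 : ℤ) ^ 2 + (v' 6 : ℤ) ^ 2 + (v' 7 : ℤ) ^ 2) = s := by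
    rw [← k2]
    unfold ip
    rw [Fin.sum_univ_eight]
    ring
  have em : ms v' + {w8} = {v' 0} + {v' 1} + {v' 2} + {v' 3} + {v' 4} + {v' 5} + {v' 6} + {v' 7} + {w8} := by
    unfold ms
    rw [Fin.sum_univ_eight]
  rw [em]
  generalize v' 0 = u0 at *
  generalize v' 1 = u1 at *
  generalize v' 2 = u2 at *
  generalize v' 3 = u3 at *
  generalize v' 4 = u4 at *
  generalize v' 5 = u5 at *
  generalize v' 6 = u6 at *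
  generalize v' 7 = u7 at *
  refine top7 hm c01 c12 c23 c34 c45 c56 c67 l1' cs (by rw [← hG]; exact h8)
    (by rw [← hG]; exact (((((l2').trans c67).trans c56).trans c45).trans c34).trans c23) ?_
  rw [← hG]
  by_contra hcon
  push Not at hcon
  obtain ⟨g1, g2, g3, g4⟩ := hcon
  obtain ⟨r3, -⟩ := rel8 (d := (d' : ℤ)) (u0 := (u0 : ℤ)) (u1 := (u1 : ℤ)) (u2 := (u2 : ℤ)) (u3 := (u3 : ℤ)) (u4 := (u4 : ℤ)) (u5 := (u5 : ℤ)) (u6 := (u6 : ℤ)) (u7 := (u7 : ℤ)) (by exact_mod_cast c01) (by exact_mod_cast c12) (by exact_mod_cast c23) (by exact_mod_cast c34) (by exact_mod_cast c45) (by exact_mod_cast c56) (by exact_mod_cast c67) (by exact_mod_cast cs)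
  obtain ⟨f1, f2⟩ := lin8 (d := (d' : ℤ)) (u0 := (u0 : ℤ)) (u1 := (u1 : ℤ)) (u2 := (u2 : ℤ)) (u3 := (u3 : ℤ)) (u4 := (u4 : ℤ)) (u5 := (u5 : ℤ)) (u6 := (u6 : ℤ)) (u7 := (u7 : ℤ)) (G := (G : ℤ)) (by exact_mod_cast c01) (by exact_mod_cast c12) (by exact_mod_cast c23) (by exact_mod_cast c34) (by exact_mod_cast c45) (by exact_mod_cast c56) (by exact_mod_cast c67) (by exact_mod_cast cs) (by exact_mod_cast g1) (by exact_mod_cast g2) (by exact_mod_cast g3) (by exact_mod_cast g4)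
  rw [b2] at r3
  rw [b1] at r3 f1 f2
  have f3 : (κ - 1 * (u7 : ℤ)) ^ 2 ≤ (19448 * (G : ℤ)) ^ 2 := pow_le_pow_left₀ f1 f2 2
  exact absurd (n1.trans_le r3) (not_lt.2 f3)

/-- the invariants after the last multiplicity has been increased -/
theorem inv8 {d w0 w1 w2 w3 w4 w5 w6 w7 w8 c G κ s : ℤ} (h01 : w1 ≤ w0) (h12 : w2 ≤ w1) (h23 : w3 ≤ w2) (h34 : w4 ≤ w3) (h45 : w5 ≤ w4) (h56 : w6 ≤ w5) (h67 : w7 ≤ w6)
    (hs : w0 + w1 + w2 ≤ d) (g1 : d < w0 + 2 * w5 + 5 * G) (g2 : w0 < w1 + 24 * G) (g3 : w5 < w6 + 476 * G) (g4 : w6 < w7 + 8976 * G)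
    (hG : 1 ≤ G) (h6 : 0 ≤ w8) (hgap : w8 + 155584 * G ≤ w7)
    (hQ0 : 0 ≤ (3 * d - (w0 + w1 + w2 + w3 + w4 + w5 + w6 + w7)) ^ 2 -
      1 * (d ^ 2 - (w0 ^ 2 + w1 ^ 2 + w2 ^ 2 + w3 ^ 2 + w4 ^ 2 + w5 ^ 2 + w6 ^ 2 + w7 ^ 2)))
    (hc1 : w7 + 38896 * G - 1 ≤ c) (hc2 : c ≤ w7 + 38896 * G)
    (hκ : κ = 3 * d - (w0 + w1 + w2 + w3 + w4 + w5 + w6 + c))
    (hs' : s = d ^ 2 - (w0 ^ 2 + w1 ^ 2 + w2 ^ 2 + w3 ^ 2 + w4 ^ 2 + w5 ^ 2 + w6 ^ 2 + c ^ 2)) :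
    0 ≤ κ ∧ κ ^ 2 ≤ (1 + 1) * s ∧ (19448 * G) ^ 2 < κ ^ 2 - 1 * s ∧
    ∀ u : ℤ, (1 * u - κ) ^ 2 ≤ (1 + 1) * (κ ^ 2 - 1 * s) → w8 ≤ u ∧ 100 * G ≤ u := by
  obtain ⟨r1, r2⟩ := rel8 h01 h12 h23 h34 h45 h56 h67 hs
  obtain ⟨f1, f2⟩ := lin8 h01 h12 h23 h34 h45 h56 h67 hs g1 g2 g3 g4
  obtain ⟨ε, hε⟩ : ∃ ε : ℤ, ε = 3 * d - (w0 + w1 + w2 + w3 + w4 + w5 + w6 + w7) - 1 * w7 := ⟨_, rfl⟩
  obtain ⟨κL, hκL⟩ : ∃ κ : ℤ, κ = 3 * d - (w0 + w1 + w2 + w3 + w4 + w5 + w6 + w7) := ⟨_, rfl⟩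
  obtain ⟨sL, hsL⟩ : ∃ s : ℤ, s = d ^ 2 - (w0 ^ 2 + w1 ^ 2 + w2 ^ 2 + w3 ^ 2 + w4 ^ 2 + w5 ^ 2 + w6 ^ 2 + w7 ^ 2) :=
    ⟨_, rfl⟩
  rw [← hε] at r1 f1 f2
  rw [← hκL, ← hsL] at r1 hQ0
  have hκw : κL = 1 * w7 + ε := by rw [hκL, hε]; ring
  have k1 : κ = κL - (c - w7) := by rw [hκ, hκL]; ring
  have k2 : s = sL - 2 * w7 * (c - w7) - (c - w7) ^ 2 := by rw [hs', hsL]; ring
  have hE2 : (2 : ℤ) ≤ 19448 * G := by linarith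
  obtain ⟨n1, n2⟩ := ar_norm (D := 1) (w := w7) (ε := ε) (E := 19448 * G) (x := c - w7)
    (Or.inl rfl) hκw f1 f2 hE2 hQ0 r1 (by linarith) (by linarith) k1 k2
  obtain ⟨p1, p2⟩ := ar_pair (D := 1) (w := w7) (ε := ε) (E := 19448 * G) (x := c - w7)
    (Or.inl rfl) hκw f1 hE2 (by linarith) k1 (by linarith) (fun _ => by linarith) n2
  refine ⟨p1, p2, n1, fun u hu => ?_⟩
  have l1 := ar_last (D := 1) (w := w7) (ε := ε) (E := 19448 * G) (x := c - w7) (s := s)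
    (u := u) (Or.inl rfl) hκw f1 hE2 (by linarith) k1 n2 hu
  have h := l1.1
  constructor <;> linarith

theorem room8' {d w0 w1 w2 w3 w4 w5 w6 w7 w8 t G : ℤ} (h01 : w1 ≤ w0) (h12 : w2 ≤ w1) (h23 : w3 ≤ w2) (h34 : w4 ≤ w3) (h45 : w5 ≤ w4) (h56 : w6 ≤ w5) (h67 : w7 ≤ w6)
    (hs : w0 + w1 + w2 ≤ d) (g1 : d < w0 + 2 * w5 + 5 * G) (g2 : w0 < w1 + 24 * G) (g3 : w5 < w6 + 476 * G) (g4 : w6 < w7 + 8976 * G)
    (hG : 1 ≤ G) (h8 : 0 ≤ w8) (hgap : w8 + 155584 * G ≤ w7) (ht0 : 0 ≤ t) (ht : t ≤ G) :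
    w0 * (w0 + 1) + w1 * (w1 + 1) + w2 * (w2 + 1) + w3 * (w3 + 1) + w4 * (w4 + 1) + w5 * (w5 + 1) + w6 * (w6 + 1) + (w7 + 38896 * G) * (w7 + 38896 * G + 1) + w8 * (w8 + 1) + t * (t + 1) ≤ (d + 1) * (d + 2) := by
  obtain ⟨r1, r2⟩ := rel8 h01 h12 h23 h34 h45 h56 h67 hs
  obtain ⟨f1, f2⟩ := lin8 h01 h12 h23 h34 h45 h56 h67 hs g1 g2 g3 g4
  have hr := ar_room (D := 1) (w := w7) (E := 19448 * G) (B := w8 ^ 2) (wn := w8)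
    (t := t) (G := G) (Or.inl rfl) f1 (by linarith) (by linarith) (by linarith) ht0 ht
    (by linarith) (fun _ => by linarith) r2 (by linarith)
  have lin : w0 + w1 + w2 + w3 + w4 + w5 + w6 + (w7 + 38896 * G) + w8 ≤ 3 * d := by linarith
  linarith

/-- **Eight points.** -/
theorem top8 {m t d w0 w1 w2 w3 w4 w5 w6 w7 w8 : ℕ} (hm : 0 < m) (h01 : w1 ≤ w0) (h12 : w2 ≤ w1)
    (h23 : w3 ≤ w2) (h34 : w4 ≤ w3) (h45 : w5 ≤ w4) (h56 : w6 ≤ w5) (h67 : w7 ≤ w6)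
    (h78 : w8 ≤ w7) (hs : w0 + w1 + w2 ≤ d) (h8 : W611.ff m + t + 1 ≤ w8)
    (hw : 100 * (W611.ff m + t + 1) ≤ w2)
    (hsl : w0 + 2 * w5 + 5 * (W611.ff m + t + 1) ≤ d ∨ w1 + 24 * (W611.ff m + t + 1) ≤ w0 ∨
      w6 + 476 * (W611.ff m + t + 1) ≤ w5 ∨ w7 + 8976 * (W611.ff m + t + 1) ≤ w6 ∨
      w8 + 155584 * (W611.ff m + t + 1) ≤ w7) :
    Al m t d ({w0} + {w1} + {w2} + {w3} + {w4} + {w5} + {w6} + {w7} + {w8}) := by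
  have hF := ff_ge m
  rcases Nat.lt_or_ge d (w0 + 2 * w5 + 5 * (W611.ff m + t + 1)) with hσ | hσ
  swap
  · exact top7 hm h01 h12 h23 h34 h45 h56 h67 h78 hs h8 hw (Or.inl hσ)
  rcases Nat.lt_or_ge w0 (w1 + 24 * (W611.ff m + t + 1)) with hb | hb
  swap
  · exact top7 hm h01 h12 h23 h34 h45 h56 h67 h78 hs h8 hw (Or.inr (Or.inl hb))
  rcases Nat.lt_or_ge w5 (w6 + 476 * (W611.ff m + t + 1)) with hb6 | hb6
  swap
  · exact top7 hm h01 h12 h23 h34 h45 h56 h67 h78 hs h8 hw (Or.inr (Or.inr (Or.inl hb6)))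
  rcases Nat.lt_or_ge w6 (w7 + 8976 * (W611.ff m + t + 1)) with hb7 | hb7
  swap
  · exact top7 hm h01 h12 h23 h34 h45 h56 h67 h78 hs h8 hw (Or.inr (Or.inr (Or.inr hb7)))
  have hg : w8 + 155584 * (W611.ff m + t + 1) ≤ w7 := by
    rcases hsl with h | h | h | h | h
    · exact absurd h (not_le.2 hσ)
    · exact absurd h (not_le.2 hb)
    · exact absurd h (not_le.2 hb6)
    · exact absurd h (not_le.2 hb7)
    · exact h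
  clear hsl
  obtain ⟨G, hG⟩ : ∃ G, G = W611.ff m + t + 1 := ⟨_, rfl⟩
  rw [← hG] at hσ hb hb6 hb7 hg h8 hw
  have hG1 : 1 ≤ G := by omega
  have htG : t ≤ G := by omega
  have hFG : W611.ff m + m + 3 ≤ 38896 * G := by omega
  have z01 : (w1 : ℤ) ≤ w0 := by exact_mod_cast h01
  have z12 : (w2 : ℤ) ≤ w1 := by exact_mod_cast h12
  have z23 : (w3 : ℤ) ≤ w2 := by exact_mod_cast h23
  have z34 : (w4 : ℤ) ≤ w3 := by exact_mod_cast h34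
  have z45 : (w5 : ℤ) ≤ w4 := by exact_mod_cast h45
  have z56 : (w6 : ℤ) ≤ w5 := by exact_mod_cast h56
  have z67 : (w7 : ℤ) ≤ w6 := by exact_mod_cast h67
  have z78 : (w8 : ℤ) ≤ w7 := by exact_mod_cast h78
  have zs : (w0 : ℤ) + w1 + w2 ≤ d := by exact_mod_cast hs
  have zg1 : (d : ℤ) < w0 + 2 * w5 + 5 * G := by exact_mod_cast hσ
  have zg2 : (w0 : ℤ) < w1 + 24 * G := by exact_mod_cast hb
  have zg3 : (w5 : ℤ) < w6 + 476 * G := by exact_mod_cast hb6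
  have zg4 : (w6 : ℤ) < w7 + 8976 * G := by exact_mod_cast hb7
  have zG : (1 : ℤ) ≤ G := by exact_mod_cast hG1
  have zgap : (w8 : ℤ) + 155584 * G ≤ w7 := by exact_mod_cast hg
  have hQ0 := hodgeD (n := 8) (D := 1) (by omega) (by norm_num) (v := ![w0, w1, w2, w3, w4, w5, w6, w7])
    (d := d) (κ := 3 * (d : ℤ) - (w0 + w1 + w2 + w3 + w4 + w5 + w6 + w7))
    (s := (d : ℤ) ^ 2 - ((w0 : ℤ) ^ 2 + (w1 : ℤ) ^ 2 + (w2 : ℤ) ^ 2 + (w3 : ℤ) ^ 2 + (w4 : ℤ) ^ 2 + (w5 : ℤ) ^ 2 + (w6 : ℤ) ^ 2 + (w7 : ℤ) ^ 2)) (by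
      unfold kk
      rw [Fin.sum_univ_eight]
      simp only [Matrix.cons_val]) (by
      unfold ip
      rw [Fin.sum_univ_eight]
      simp only [Matrix.cons_val]
      ring) 0
  have e5 : ({w0} + {w1} + {w2} + {w3} + {w4} + {w5} + {w6} + {w7} + {w8} : Multiset ℕ) =
      {w7} + ({w0} + {w1} + {w2} + {w3} + {w4} + {w5} + {w6} + {w8}) := by abel
  rw [e5]
  refine raise' hm (c := w7 + 38896 * G) (by omega) ?_ ?_
  · intro c hc1 hc2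
    have zc1 : (w7 : ℤ) + 38896 * G - 1 ≤ c := by
      have : w7 + 38896 * G ≤ c + 1 := by omega
      have h2 : (w7 : ℤ) + 38896 * G ≤ c + 1 := by exact_mod_cast this
      linarith
    have zc2 : (c : ℤ) ≤ w7 + 38896 * G := by exact_mod_cast hc2
    obtain ⟨p1, p2, n1, hl⟩ := inv8 z01 z12 z23 z34 z45 z56 z67 zs zg1 zg2 zg3 zg4 zG (Int.natCast_nonneg w8) zgap hQ0
      zc1 zc2 rfl rfl
    have ev : ({c} + ({w0} + {w1} + {w2} + {w3} + {w4} + {w5} + {w6} + {w8}) : Multiset ℕ) =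
        ms ![w0, w1, w2, w3, w4, w5, w6, c] + {w8} := by
      unfold ms
      rw [Fin.sum_univ_eight]
      simp only [Matrix.cons_val]
      abel
    rw [ev]
    refine fold8 hm hG h8 p1 p2 n1 hl d _ ?_ ?_
    · unfold kk
      rw [Fin.sum_univ_eight]
      simp only [Matrix.cons_val]
    · unfold ip
      rw [Fin.sum_univ_eight]
      simp only [Matrix.cons_val]
      ring
  · intro Y hY
    have aY := two_condM_le' hY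
    have a0 := two_ch w0
    have a1 := two_ch w1
    have a2 := two_ch w2
    have a3 := two_ch w3
    have a4 := two_ch w4
    have a5 := two_ch w5
    have a6 := two_ch w6
    have a7 := two_ch (w7 + 38896 * G)
    have a8 := two_ch w8
    have ad := two_ch (d + 1)
    have hr2 := room8' z01 z12 z23 z34 z45 z56 z67 zs zg1 zg2 zg3 zg4 zG (Int.natCast_nonneg w8) zgap
      (Int.natCast_nonneg t) (by exact_mod_cast htG)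
    have hr' : w0 * (w0 + 1) + w1 * (w1 + 1) + w2 * (w2 + 1) + w3 * (w3 + 1) + w4 * (w4 + 1) + w5 * (w5 + 1) + w6 * (w6 + 1) + (w7 + 38896 * G) * (w7 + 38896 * G + 1) + w8 * (w8 + 1) + t * (t + 1) ≤ (d + 1) * (d + 2) := by exact_mod_cast hr2
    have e2 : (d + 1 + 1).choose 2 = (d + 2).choose 2 := rfl
    simp only [condM_add, condM_single] at aY ⊢
    rw [← e2]
    have e3 : (d + 1) * (d + 1 + 1) = (d + 1) * (d + 2) := rfl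
    rw [e3] at ad
    linarith

end Pool.Agent.J4.H6.NC
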